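import Pool.Agent.helper66.JS.Defs3
import Pool.Agent.H54.PT.Enc

/-!
# Unary blocks at the beginning of a word
-/

set_option autoImplicit false

namespace Pool.Agent.helper66.JS

namespace Blk

open Pool.Agent.H54.PT

/-- number of zeros among the first `i` bits -/
def zer (w : List Bool) (i : ℕ) : ℕ :=
  ((Finset.range i).filter (fun l => ¬ w.getD l false = true)).card

/-- length of the `j`-th block of ones -/
def blkj (w : List Bool) (j : ℕ) : ℕ :=
  ((Finset.range w.length).filter (fun i => w.getD i false = true ∧ zer w i = j)).card

/-- end of the first `n` blocks, with their final zeros -/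
def epos (w : List Bool) (n : ℕ) : ℕ :=
  ((Finset.range w.length).filter (fun i => zer w i < n)).card

lemma zer_succ (w : List Bool) (i : ℕ) : zer w (i + 1) = zer w i +
    if w.getD i false = true then 0 else 1 := by
  unfold zer
  rw [Finset.card_filter, Finset.card_filter, Finset.sum_range_succ]
  congr 1
  split_ifs <;> rfl

lemma getD_blk (a : ℕ) (l : List Bool) (j : ℕ) :
    (List.replicate a true ++ false :: l).getD j false =
      if j < a then true else if j = a then false else l.getD (j - (a + 1)) false := by
  induction a generalizing j with
  | zero =>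
    cases j with
    | zero => simp
    | succ j => simp
  | succ k ih =>
    cases j with
    | zero => simp [List.replicate_succ]
    | succ j =>
      rw [List.replicate_succ, List.cons_append, List.getD_cons_succ, ih]
      have e1 : j + 1 - (k + 1 + 1) = j - (k + 1) := by omega
      rw [e1]
      simp only [Nat.add_lt_add_iff_right, Nat.add_right_cancel_iff]

lemma getD_high (a : ℕ) (l : List Bool) (i : ℕ) :
    (List.replicate a true ++ false :: l).getD (a + 1 + i) false = l.getD i false := by
  have h1 : ¬ a + 1 + i < a := by omega
  have h2 : ¬ a + 1 + i = a := by omega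
  rw [getD_blk, if_neg h1, if_neg h2]
  congr 1
  omega

lemma zer_low (a : ℕ) (l : List Bool) : ∀ i ≤ a, zer (List.replicate a true ++ false :: l) i = 0 := by
  intro i
  induction i with
  | zero => intro _; rfl
  | succ i ih =>
    intro h
    rw [zer_succ, ih (by omega), getD_blk, if_pos (by omega : i < a)]
    simp

lemma zer_high (a : ℕ) (l : List Bool) (i : ℕ) :
    zer (List.replicate a true ++ false :: l) (a + 1 + i) = 1 + zer l i := by
  induction i with
  | zero =>
    rw [add_zero, zer_succ, zer_low a l a le_rfl, getD_blk, if_neg (lt_irrefl _), if_pos rfl]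
    simp [zer]
  | succ i ih =>
    rw [← add_assoc, zer_succ, ih, zer_succ, getD_high, add_assoc]

lemma len_blk (a : ℕ) (l : List Bool) :
    (List.replicate a true ++ false :: l).length = a + 1 + l.length := by
  simp; omega

lemma blkj_zero (a : ℕ) (l : List Bool) :
    blkj (List.replicate a true ++ false :: l) 0 = a := by
  unfold blkj
  have : (Finset.range (List.replicate a true ++ false :: l).length).filter
      (fun i => (List.replicate a true ++ false :: l).getD i false = true ∧
        zer (List.replicate a true ++ false :: l) i = 0) = Finset.range a := by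
    ext i
    rw [Finset.mem_filter, Finset.mem_range, Finset.mem_range, len_blk]
    constructor
    · rintro ⟨_, h1, h2⟩
      by_contra hcon
      rcases Nat.lt_or_eq_of_le (not_lt.1 hcon) with h3 | h3
      · obtain ⟨i', rfl⟩ : ∃ i', i = a + 1 + i' := ⟨i - (a + 1), by omega⟩
        rw [zer_high] at h2
        omega
      · rw [getD_blk, if_neg (by omega), if_pos h3.symm] at h1
        simp at h1
    · intro h
      exact ⟨by omega, by rw [getD_blk, if_pos h], zer_low a l i h.le⟩
  rw [this, Finset.card_range]

lemma blkj_succ (a : ℕ) (l : List Bool) (j : ℕ) :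
    blkj (List.replicate a true ++ false :: l) (j + 1) = blkj l j := by
  unfold blkj
  rw [Finset.card_filter, Finset.card_filter, len_blk, Finset.sum_range_add]
  rw [Finset.sum_eq_zero (s := Finset.range (a + 1)), zero_add]
  · refine Finset.sum_congr rfl fun i _ => ?_
    rw [zer_high, getD_high]
    have : (1 + zer l i = j + 1) ↔ (zer l i = j) := by omega
    simp only [this]
  · intro i hi
    rw [if_neg]
    rintro ⟨_, h⟩
    rw [zer_low a l i (by rw [Finset.mem_range] at hi; omega)] at h
    omega

lemma epos_zero (w : List Bool) : epos w 0 = 0 := by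
  simp [epos]

lemma epos_succ (a : ℕ) (l : List Bool) (n : ℕ) :
    epos (List.replicate a true ++ false :: l) (n + 1) = a + 1 + epos l n := by
  unfold epos
  rw [Finset.card_filter, Finset.card_filter, len_blk, Finset.sum_range_add]
  congr 1
  · rw [Finset.sum_congr rfl (g := fun _ => 1)]
    · simp
    · intro i hi
      rw [if_pos]
      rw [zer_low a l i (by rw [Finset.mem_range] at hi; omega)]
      omega
  · refine Finset.sum_congr rfl fun i _ => ?_
    rw [zer_high]
    have : (1 + zer l i < n + 1) ↔ (zer l i < n) := by omega
    simp only [this]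

lemma ublk_cons (a : ℕ) (l : List ℕ) (r : List Bool) :
    ublk (a :: l) ++ r = List.replicate a true ++ false :: (ublk l ++ r) := by
  simp [ublk]

lemma blkj_ublk (l : List ℕ) (r : List Bool) : ∀ j < l.length, blkj (ublk l ++ r) j = l.getD j 0 := by
  induction l with
  | nil => intro j h; simp at h
  | cons a l ih =>
    intro j h
    rw [ublk_cons]
    cases j with
    | zero => rw [blkj_zero]; rfl
    | succ j => rw [blkj_succ, ih j (by simpa using h)]; rfl

lemma epos_ublk (l : List ℕ) (r : List Bool) : epos (ublk l ++ r) l.length = (ublk l).length := by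
  induction l with
  | nil => simp [epos_zero, ublk]
  | cons a l ih =>
    rw [ublk_cons, List.length_cons, epos_succ, ih]
    have := congrArg List.length (ublk_cons a l [])
    rw [List.append_nil, len_blk, List.append_nil] at this
    rw [this]

lemma getD_after (u r : List Bool) (i : ℕ) : (u ++ r).getD (u.length + i) false = r.getD i false := by
  rw [List.getD_append_right _ _ _ _ (by omega)]
  congr 1
  omega

/-! ### polynomial time -/

lemma cp_zer {e : Fn} (he : Cp e) : Cp (fun x v => zer x (e x v)) :=
  Cp.count (P := fun x _ l => ¬ x.getD l false = true) he (Cq.bit (Cp.var 0)).not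

lemma cp_blkj {e : Fn} (he : Cp e) : Cp (fun x v => blkj x (e x v)) :=
  Cp.count (P := fun x v i => x.getD i false = true ∧ zer x i = e x v) Cp.len
    ((Cq.bit (Cp.var 0)).and (Cq.eq (cp_zer (Cp.var 0)) (he.rename (· + 1))))

lemma cp_epos {e : Fn} (he : Cp e) : Cp (fun x v => epos x (e x v)) :=
  Cp.count (P := fun x v i => zer x i < e x v) Cp.len
    (Cq.lt (cp_zer (Cp.var 0)) (he.rename (· + 1)))

end Blk

end Pool.Agent.helper66.JS
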