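import Pool.Agent.helper66.JS.Defs3

/-!
# Counters of words
-/

set_option autoImplicit false

namespace Pool.Agent.helper66.JS

open Turing Finset

lemma sum_mod (R : ℕ) (_hR : 0 < R) (j : ℕ) (hj : j < R) (g : ℕ → ℕ) (ℓ : ℕ) :
    ∑ i ∈ Finset.range (R * ℓ), (if i % R = j then g i else 0) =
      ∑ q ∈ Finset.range ℓ, g (R * q + j) := by
  induction ℓ with
  | zero => simp
  | succ ℓ ih =>
    rw [Nat.mul_succ, Finset.sum_range_add, ih, Finset.sum_range_succ]
    congr 1
    rw [Finset.sum_eq_single j]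
    · rw [if_pos]
      rw [Nat.mul_add_mod, Nat.mod_eq_of_lt hj]
    · intro i hi hij
      rw [if_neg]
      rw [Nat.mul_add_mod, Nat.mod_eq_of_lt (Finset.mem_range.1 hi)]
      exact hij
    · intro h; exact absurd (Finset.mem_range.2 hj) h

lemma cx_ge (R : ℕ) (hR : 0 < R) (x : List Bool) (j : ℕ) (hj : R ≤ j) : cx R x j = 0 := by
  unfold cx
  refine Finset.sum_eq_zero fun i _ => ?_
  rw [if_neg]
  have := Nat.mod_lt i hR
  omega

lemma cx_eq (R : ℕ) (hR : 0 < R) (x : List Bool) (ℓ : ℕ) (hx : x.length = R * ℓ + 1) (j : ℕ)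
    (hj : j < R) : cx R x j =
      ∑ q ∈ Finset.range ℓ, (x.getD (R * q + j + 1) false).toNat * 2 ^ q := by
  unfold cx
  rw [hx, Nat.add_sub_cancel, sum_mod R hR j hj (fun i => (x.getD (i + 1) false).toNat *
    2 ^ (i / R))]
  refine Finset.sum_congr rfl fun q _ => ?_
  rw [Nat.mul_add_div hR, Nat.div_eq_of_lt hj, add_zero]

lemma cx_lt (R : ℕ) (hR : 0 < R) (x : List Bool) (ℓ : ℕ) (hx : x.length = R * ℓ + 1) (j : ℕ) :
    cx R x j < 2 ^ ℓ := by
  rcases Nat.lt_or_ge j R with hj | hj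
  · rw [cx_eq R hR x ℓ hx j hj]
    have h : ∀ n, ∑ q ∈ Finset.range n, (x.getD (R * q + j + 1) false).toNat * 2 ^ q < 2 ^ n := by
      intro n
      induction n with
      | zero => simp
      | succ n ih =>
        rw [Finset.sum_range_succ, pow_succ]
        have : (x.getD (R * n + j + 1) false).toNat ≤ 1 := Bool.toNat_le _
        nlinarith [Nat.mul_le_mul_right (2 ^ n) this]
    exact h ℓ
  · rw [cx_ge R hR x j hj]; positivity

end Pool.Agent.helper66.JS
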