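import Pool.Agent.helper66.JS2.Cx
import Pool.Agent.helper59.JS.A1

/-!
# Modules L1, L2, L3: bounds
-/

set_option autoImplicit false

namespace Pool.Agent.helper66.JS

open Turing Finset

/-! ### the code is long enough -/

lemma bitEncode_list_length {α : Type} [N487b59b3 α] (l : List α) :
    (N487b59b3.bitEncode l).length = (l.map (fun a => 2 * (N487b59b3.bitEncode a).length + 1)).sum := by
  change (((l.map N487b59b3.bitEncode).map N487b59b3.delimit).flatten).length = _
  rw [List.length_flatten, List.map_map, List.map_map]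
  congr 1
  refine List.map_congr_left fun a _ => ?_
  simp [Function.comp]

lemma bitEncode_pair_length {α β : Type} [N487b59b3 α] [N487b59b3 β] (a : α) (b : β) :
    (N487b59b3.bitEncode (a, b)).length =
      2 * (N487b59b3.bitEncode a).length + 1 + (N487b59b3.bitEncode b).length := by
  change (N487b59b3.delimit (N487b59b3.bitEncode a) ++ N487b59b3.bitEncode b).length = _
  rw [List.length_append, N487b59b3.length_delimit]

lemma length_le_code {α : Type} [N487b59b3 α] (l : List α) :
    l.length ≤ (N487b59b3.bitEncode l).length := by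
  rw [bitEncode_list_length]
  induction l with
  | nil => simp
  | cons a l ih => simp only [List.map_cons, List.sum_cons, List.length_cons]; omega

theorem enc_bounds (I : Inst) : I.1.length ≤ (N487b59b3.bitEncode I).length ∧
    (I.1.map List.length).sum ≤ (N487b59b3.bitEncode I).length := by
  obtain ⟨js, L⟩ := I
  rw [bitEncode_pair_length]
  refine ⟨(length_le_code js).trans (by omega), ?_⟩
  have : (js.map List.length).sum ≤ (N487b59b3.bitEncode js).length := by
    rw [bitEncode_list_length]
    induction js with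
    | nil => simp
    | cons J js ih =>
      have := length_le_code J
      simp only [List.map_cons, List.sum_cons]
      omega
  show (js.map List.length).sum ≤ _
  omega

theorem exists_table (k : ℕ) : ∃ T : List Job, T.Nodup ∧ (∀ J ∈ T, ∀ o ∈ J, o.1 < 3) ∧
    ∀ I : Inst, Valid I → pmax I + nmax I ≤ k → ∀ J ∈ I.1, J ∈ T := by
  classical
  have hf : {J : Job | J.length ≤ k ∧ ∀ o ∈ J, o.1 < 3 ∧ o.2 ≤ k}.Finite := by
    have h1 : {l : List (Fin 3 × Fin (k + 1)) | l.length ≤ k}.Finite :=
      List.finite_length_le _ _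
    refine (h1.image (fun l => l.map (fun o => (o.1.1, o.2.1)))).subset ?_
    rintro J ⟨h1, h2⟩
    refine ⟨J.attach.map (fun o => (⟨o.1.1, (h2 o.1 o.2).1⟩,
      ⟨o.1.2, Nat.lt_succ_of_le (h2 o.1 o.2).2⟩)), by simpa using h1, ?_⟩
    show List.map _ (List.map _ _) = _
    rw [List.map_map]
    have h3 : ((fun o : Fin 3 × Fin (k + 1) => ((o.1 : ℕ), (o.2 : ℕ))) ∘
        fun o : {x // x ∈ J} => ((⟨o.1.1, (h2 o.1 o.2).1⟩ : Fin 3),
          (⟨o.1.2, Nat.lt_succ_of_le (h2 o.1 o.2).2⟩ : Fin (k + 1)))) = Subtype.val := by
      funext o; rfl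
    rw [h3]
    exact List.attach_map_subtype_val J
  refine ⟨hf.toFinset.toList, Finset.nodup_toList _, ?_, ?_⟩
  · intro J hJ o ho
    rw [Finset.mem_toList, Set.Finite.mem_toFinset] at hJ
    exact (hJ.2 o ho).1
  · intro I hv hk J hJ
    rw [Finset.mem_toList, Set.Finite.mem_toFinset]
    have hmax : ∀ (l : List ℕ) (a : ℕ), a ∈ l → a ≤ l.foldr max 0 := by
      intro l
      induction l with
      | nil => simp
      | cons b l ih =>
        intro a ha
        simp only [List.foldr_cons]
        rcases List.mem_cons.1 ha with h | h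
        · exact h ▸ le_max_left _ _
        · exact (ih a h).trans (le_max_right _ _)
    refine ⟨?_, fun o ho => ⟨((hv J hJ).1 o ho).1, ?_⟩⟩
    · have : J.length ≤ nmax I := hmax _ _ (List.mem_map.2 ⟨J, hJ, rfl⟩)
      omega
    · have : o.2 ≤ pmax I :=
        hmax _ _ (List.mem_map.2 ⟨o, List.mem_flatten.2 ⟨J, hJ, ho⟩, rfl⟩)
      omega

/-! ### a large makespan bound -/

/-- time of all operations of a job -/
def jt (J : Job) : ℕ := (J.map Prod.snd).sum

lemma take_sum_succ {α : Type} (l : List α) (f : α → ℕ) (i : ℕ) (a : α) (h : l[i]? = some a) :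
    ((l.take (i + 1)).map f).sum = ((l.take i).map f).sum + f a := by
  obtain ⟨hi, rfl⟩ := List.getElem?_eq_some_iff.1 h
  rw [List.take_succ_eq_append_getElem hi, List.map_append, List.sum_append]
  simp

lemma take_sum_mono {α : Type} (l : List α) (f : α → ℕ) (i j : ℕ) (h : i ≤ j) :
    ((l.take i).map f).sum ≤ ((l.take j).map f).sum := by
  have : (l.take i) = (l.take j).take i := by rw [List.take_take, min_eq_left h]
  rw [this]
  clear this h
  generalize l.take j = l'
  induction l' generalizing i with
  | nil => simp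
  | cons a l' ih =>
    cases i with
    | zero => simp
    | succ i => simp only [List.take_succ_cons, List.map_cons, List.sum_cons]
                have := ih i
                omega

/-- sequential schedule -/
def seqS (js : List Job) (j i : ℕ) : ℕ :=
  ((js.take j).map jt).sum + (((js.getD j []).take i).map Prod.snd).sum

lemma seqS_succ {js : List Job} {j i m p : ℕ} (h : IsOp js j i m p) :
    seqS js j (i + 1) = seqS js j i + p := by
  obtain ⟨J, hJ, ho⟩ := h
  have e : js.getD j [] = J := by rw [List.getD_eq_getElem?_getD, hJ]; rfl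
  unfold seqS
  rw [e, take_sum_succ J Prod.snd i _ ho]
  omega

lemma seqS_le {js : List Job} {j i m p : ℕ} (h : IsOp js j i m p) :
    seqS js j i + p ≤ ((js.take (j + 1)).map jt).sum := by
  rw [← seqS_succ h]
  obtain ⟨J, hJ, ho⟩ := h
  have e : js.getD j [] = J := by rw [List.getD_eq_getElem?_getD, hJ]; rfl
  unfold seqS
  rw [e, take_sum_succ js jt j _ hJ]
  have := take_sum_mono J Prod.snd (i + 1) (i + 1 + J.length) (by omega)
  rw [List.take_of_length_le (i := i + 1 + J.length) (by omega)] at this
  unfold jt
  omega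

lemma seqS_sched (js : List Job) (C : ℕ) (hC : (js.map jt).sum ≤ C) :
    NSched js C (seqS js) where
  bound := by
    intro j i m p h
    refine (seqS_le h).trans (le_trans ?_ hC)
    have := take_sum_mono js jt (j + 1) (j + 1 + js.length) (by omega)
    rwa [List.take_of_length_le (i := j + 1 + js.length) (by omega)] at this
  order := by
    intro j i m p m' p' h _
    rw [seqS_succ h]
  machine := by
    have key : ∀ j i j' i' m p p', IsOp js j i m p → IsOp js j' i' m p' →
        (j < j' ∨ (j = j' ∧ i < i')) → seqS js j i + p ≤ seqS js j' i' := by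
      intro j i j' i' m p p' h h' hlt
      rcases hlt with hlt | ⟨rfl, hlt⟩
      · refine (seqS_le h).trans ((take_sum_mono js jt (j + 1) j' hlt).trans ?_)
        exact Nat.le_add_right _ _
      · rw [← seqS_succ h]
        exact Nat.add_le_add_left (take_sum_mono _ _ _ _ hlt) _
    intro j i j' i' m p p' h h' hne
    by_cases h1 : j < j' ∨ (j = j' ∧ i < i')
    · exact Or.inl (key j i j' i' m p p' h h' h1)
    · refine Or.inr (key j' i' j i m p' p h' h ?_)
      have : ¬ (j = j' ∧ i = i') := fun e => hne (by rw [e.1, e.2])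
      omega

theorem feasible_cap (js : List Job) (L C : ℕ) (_hp : ∀ J ∈ js, ∀ o ∈ J, 0 < o.2)
    (hC : (js.map (fun J => (J.map Prod.snd).sum)).sum ≤ C) :
    Feasible (js, L) ↔ Feasible (js, min L C) := by
  rcases Nat.le_total L C with h | h
  · rw [min_eq_left h]
  · rw [min_eq_right h]
    constructor
    · intro _
      exact (feasible_iff _ _).2 ⟨seqS js, seqS_sched js C hC⟩
    · intro hf
      obtain ⟨s, hs⟩ := (feasible_iff _ _).1 hf
      exact (feasible_iff _ _).2 ⟨s, ⟨fun j i m p h1 => (hs.bound j i m p h1).trans h,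
        hs.order, hs.machine⟩⟩

/-! ### the counters of the input word -/

lemma sum_testBit (c : ℕ) : ∀ ℓ, ∑ q ∈ Finset.range ℓ, (Nat.testBit c q).toNat * 2 ^ q =
    c % 2 ^ ℓ := by
  intro ℓ
  induction ℓ with
  | zero => simp [Nat.mod_one]
  | succ ℓ ih =>
    rw [Finset.sum_range_succ, ih, Nat.mod_pow_succ, Nat.testBit_eq_decide_div_mod_eq]
    have := Nat.mod_two_eq_zero_or_one (c / 2 ^ ℓ)
    rcases this with h | h <;> simp [h]

theorem cx_wdJ (R : ℕ) (T : List Job) (k : ℕ) (I : Inst) (hR : T.length < R) (j : ℕ) :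
    cx R (wdJ R T k I) j =
      c0J T I.1 (min I.2 (capJ k (N487b59b3.bitEncode I).length)) j := by
  have hR0 : 0 < R := by omega
  rcases Nat.lt_or_ge j R with hj | hj
  · have hl : (wdJ R T k I).length = R * ellJ k (N487b59b3.bitEncode I).length + 1 := by
      simp [wdJ]
    rw [cx_eq R hR0 _ _ hl j hj]
    set c := c0J T I.1 (min I.2 (capJ k (N487b59b3.bitEncode I).length)) j with hc
    set ℓ := ellJ k (N487b59b3.bitEncode I).length with hℓ
    have hlt : c < 2 ^ ℓ := by
      have h1 : capJ k (N487b59b3.bitEncode I).length < 2 ^ ℓ :=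
        Nat.lt_pow_succ_log_self (by norm_num) _
      refine lt_of_le_of_lt ?_ h1
      rw [hc]
      unfold c0J
      split_ifs with h2 h3
      · refine (List.count_le_length.trans (enc_bounds I).1).trans ?_
        unfold capJ
        nlinarith [Nat.zero_le (k * (N487b59b3.bitEncode I).length)]
      · exact min_le_right _ _
      · exact Nat.zero_le _
    rw [← Nat.mod_eq_of_lt hlt, ← sum_testBit]
    refine Finset.sum_congr rfl fun q hq => ?_
    rw [Finset.mem_range] at hq
    congr 2
    unfold wdJ
    rw [List.getD_cons_succ]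
    have h4 : R * q + j < R * ℓ := by
      calc R * q + j < R * q + R := by omega
        _ = R * (q + 1) := by ring
        _ ≤ R * ℓ := Nat.mul_le_mul_left _ hq
    rw [List.getD_eq_getElem _ _ (by simpa using h4), List.getElem_map, List.getElem_range,
      Nat.mul_add_mod, Nat.mod_eq_of_lt hj, Nat.mul_add_div hR0, Nat.div_eq_of_lt hj, add_zero]
  · rw [cx_ge R hR0 _ j hj]
    unfold c0J
    rw [if_neg (by omega), if_neg (by omega)]

end Pool.Agent.helper66.JS
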