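import Pool.Agent.helper66.JS.Defs3
import Pool.Agent.helper57.JS.T1

/-!
# Modules M1, M2: simple machines
-/

set_option autoImplicit false

namespace Pool.Agent.helper66.JS

open Turing Finset

namespace M12

open Pool.Agent.helper62 Pool.Agent.helper62.Prog Function T1
open Pool.Agent.H54.PT (trp trp_cons length_trp bitEncode_word)

def padP2 (hdr : List Bool) (D m : ℕ) : Prog (Fin 5) :=
  .seq (pushes 2 (List.replicate D true)) (.seq (rd m) (.seq outx (.seq (pushes 4 (trp [false]).reverse)
    (.seq outN (pushes 4 (trp hdr).reverse)))))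

lemma run_padP2 (hdr : List Bool) (D m : ℕ) (hm : 0 < m) (x : List Bool) :
    Runs (padP2 hdr D m) (st x [] [] [] [])
      (st [] [] [] [] (trp (hdr ++ (List.replicate (D * 2 ^ (x.length / m)) true ++ false :: x))))
      (11 * (D * 2 ^ (x.length / m)) + 14 * x.length + D + 3 * hdr.length + 13) := by
  have h1 := Runs.pushes (k := (2 : Fin 5)) (List.replicate D true) (st x [] [] [] [])
  rw [u2] at h1
  have e1 : (List.replicate D true).reverse ++ (st x [] [] [] []) 2 = List.replicate D true := by
    rw [List.reverse_replicate]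
    exact List.append_nil _
  rw [e1, List.length_replicate] at h1
  obtain ⟨t, ht, h2⟩ := run_rd m hm [] x.length x rfl [] D
  rw [List.append_nil] at h2
  set N := D * 2 ^ (x.length / m) with hN
  have h3 := run_outx [] (List.replicate N true) [] x.reverse []
  rw [List.reverse_reverse, List.append_nil, List.length_reverse] at h3
  have h4 := Runs.pushes (k := (4 : Fin 5)) (trp [false]).reverse
    (st [] [] (List.replicate N true) [] (trp x))
  rw [u4, List.reverse_reverse] at h4
  have h5 := run_outN [] [] [] N (trp [false] ++ trp x)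
  have h6 := Runs.pushes (k := (4 : Fin 5)) (trp hdr).reverse
    (st [] [] [] [] (trp (List.replicate N true) ++ (trp [false] ++ trp x)))
  rw [u4, List.reverse_reverse] at h6
  have h := Runs.seq h1 (Runs.seq h2 (Runs.seq h3 (Runs.seq h4 (Runs.seq h5 h6))))
  refine h.mono' ?_ ?_
  · congr 1
    show trp hdr ++ (trp (List.replicate N true) ++ (trp [false] ++ trp x)) = _
    rw [← trp_append, ← trp_append, ← trp_append]
    simp
  · rw [List.length_reverse, List.length_reverse, length_trp, length_trp]
    simp only [List.length_singleton]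
    omega

def hdrP (hdr : List Bool) : Prog (Fin 5) :=
  .seq (pour 0 1) (.seq outx (pushes 4 (trp hdr).reverse))

lemma run_hdrP (hdr x : List Bool) :
    Runs (hdrP hdr) (st x [] [] [] []) (st [] [] [] [] (trp (hdr ++ x)))
      (6 * x.length + 3 * hdr.length + 3) := by
  have h1 := Runs.pour (k := (0 : Fin 5)) (k' := 1) (by decide) x (st x [] [] [] []) rfl
  rw [u0, u1] at h1
  have e1 : x.reverse ++ (st x [] [] [] []) 1 = x.reverse := List.append_nil _
  rw [e1] at h1
  have h3 := run_outx [] [] [] x.reverse []
  rw [List.reverse_reverse, List.append_nil, List.length_reverse] at h3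
  have h6 := Runs.pushes (k := (4 : Fin 5)) (trp hdr).reverse (st [] [] [] [] (trp x))
  rw [u4, List.reverse_reverse] at h6
  have h := Runs.seq h1 (Runs.seq h3 h6)
  refine h.mono' ?_ ?_
  · congr 1
    show trp hdr ++ trp x = _
    rw [← trp_append]
  · rw [List.length_reverse, length_trp]
    omega

def unP : Prog (Fin 5) :=
  .loop 0 .skip (.ifp 0 .skip (.seq (.push 1 false) (.ifp 0 .skip .skip .skip))
    (.seq (.push 1 true) (.ifp 0 .skip .skip .skip)))

lemma run_unP : ∀ (x y : List Bool), Runs unP (st (trp x) y [] [] [])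
    (st [] (x.reverse ++ y) [] [] []) (5 * x.length + 1) := by
  intro x
  induction x with
  | nil => intro y; exact Runs.loop_nil rfl
  | cons b x ih =>
    intro y
    have h0 : ∀ (y : List Bool), Runs (.ifp 0 .skip .skip .skip) (st (false :: trp x) y [] [] [])
        (st (trp x) y [] [] []) 2 := by
      intro y
      have := Runs.ifp (k := (0 : Fin 5)) (pn := .skip) (pf := .skip) (pt := .skip)
        (S := st (false :: trp x) y [] [] []) (S' := st (trp x) y [] [] []) (b := false)
        (l := trp x) (t := 1) rfl (by rw [u0]; exact Runs.skip _)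
      exact this
    have h1 : Runs (.ifp 0 .skip (.seq (.push 1 false) (.ifp 0 .skip .skip .skip))
        (.seq (.push 1 true) (.ifp 0 .skip .skip .skip)))
        (st (b :: false :: trp x) y [] [] []) (st (trp x) (b :: y) [] [] []) 4 := by
      refine (Runs.ifp (k := (0 : Fin 5)) (b := b) (l := false :: trp x) (t := 3) rfl ?_).mono
        (by omega)
      rw [u0]
      cases b
      · exact (Runs.seq (push1 false _ _ _ _ _) (h0 _)).mono (by omega)
      · exact (Runs.seq (push1 true _ _ _ _ _) (h0 _)).mono (by omega)
    have h2 := ih (b :: y)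
    have h3 := Runs.loop_cons (k := (0 : Fin 5)) (pf := .skip)
      (pt := .ifp 0 .skip (.seq (.push 1 false) (.ifp 0 .skip .skip .skip))
        (.seq (.push 1 true) (.ifp 0 .skip .skip .skip)))
      (S := st (trp (b :: x)) y [] [] []) (b := true)
      (l := b :: false :: trp x) (t := 4) (by rw [trp_cons]; rfl) (by rw [u0]; exact h1) h2
    refine h3.mono' ?_ (by simp only [List.length_cons]; omega)
    congr 1
    simp

def untP : Prog (Fin 5) := .seq unP (pour 1 4)

lemma run_untP (x : List Bool) : Runs untP (st (trp x) [] [] [] []) (st [] [] [] [] x)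
    (7 * x.length + 2) := by
  have h1 := run_unP x []
  rw [List.append_nil] at h1
  have h2 := Runs.pour (k := (1 : Fin 5)) (k' := 4) (by decide) x.reverse
    (st [] x.reverse [] [] []) rfl
  rw [u1, u4, List.reverse_reverse] at h2
  have e1 : x ++ (st [] x.reverse [] [] []) 4 = x := List.append_nil _
  rw [e1, List.length_reverse] at h2
  exact (Runs.seq h1 h2).mono (by omega)

lemma upd0 (x : List Bool) : (Function.update (fun _ => []) 0 x : Fin 5 → List Bool) =
    T1.st x [] [] [] [] := by
  funext i; fin_cases i <;> rfl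

lemma upd4 (x : List Bool) : (Function.update (fun _ => []) 4 x : Fin 5 → List Bool) =
    T1.st [] [] [] [] x := by
  funext i; fin_cases i <;> rfl

lemma cmp_mono' {α : Type} {dom : Set α} {ea eb : α → List Bool} {T T' : α → ℕ}
    (h : Cmp dom ea eb T) (hT : ∀ a, T a ≤ T' a) : Cmp dom ea eb T' := by
  obtain ⟨tm, ei, eo, h⟩ := h
  refine ⟨tm, ei, eo, fun a ha => ?_⟩
  obtain ⟨h1⟩ := h a ha
  exact ⟨{ steps := h1.steps, evals_in_steps := h1.evals_in_steps,
           steps_le_m := h1.steps_le_m.trans (hT a) }⟩

end M12

open M12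

theorem padder2 (hdr : List Bool) (D m : ℕ) (hm : 0 < m) :
    ∃ C, Cmp (Set.univ : Set (List Bool)) (fun x => x)
      (fun x => N487b59b3.bitEncode
        (hdr ++ (List.replicate (D * 2 ^ (x.length / m)) true ++ false :: x)))
      (fun x => C * (2 ^ (x.length / m) + x.length + 1)) := by
  have h := T1.cmp_of_prog (padP2 hdr D m) 0 4 (fun x : List Bool => x)
    (fun x => N487b59b3.bitEncode
        (hdr ++ (List.replicate (D * 2 ^ (x.length / m)) true ++ false :: x)))
    (fun x => 11 * (D * 2 ^ (x.length / m)) + 14 * x.length + D + 3 * hdr.length + 13) (by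
      intro x
      rw [upd0, upd4, Pool.Agent.H54.PT.bitEncode_word]
      exact run_padP2 hdr D m hm x)
  refine ⟨11 * D + 3 * hdr.length + 14 + D + 14, cmp_mono' h fun x => ?_⟩
  generalize 2 ^ (x.length / m) = q
  nlinarith [Nat.zero_le (D * q), Nat.zero_le (hdr.length * q), Nat.zero_le (D * x.length),
    Nat.zero_le (hdr.length * x.length), Nat.zero_le q, Nat.zero_le x.length]

theorem addhdr (hdr : List Bool) : ∃ C, Cmp (Set.univ : Set (List Bool)) (fun x => x)
    (fun x => N487b59b3.bitEncode (hdr ++ x)) (fun x => C * (x.length + 1)) := by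
  have h := T1.cmp_of_prog (hdrP hdr) 0 4 (fun x : List Bool => x)
    (fun x => N487b59b3.bitEncode (hdr ++ x))
    (fun x => 6 * x.length + 3 * hdr.length + 3) (by
      intro x
      rw [upd0, upd4, Pool.Agent.H54.PT.bitEncode_word]
      exact run_hdrP hdr x)
  refine ⟨3 * hdr.length + 6, cmp_mono' h fun x => ?_⟩
  nlinarith [Nat.zero_le (hdr.length * x.length)]

theorem untrp : ∃ C, Cmp (Set.univ : Set (List Bool)) (fun x => N487b59b3.bitEncode x)
    (fun x => x) (fun x => C * (x.length + 1)) := by
  have h := T1.cmp_of_prog untP 0 4 (fun x : List Bool => N487b59b3.bitEncode x)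
    (fun x => x) (fun x => 7 * x.length + 2) (by
      intro x
      rw [upd0, upd4, Pool.Agent.H54.PT.bitEncode_word]
      exact run_untP x)
  exact ⟨7, cmp_mono' h fun x => by omega⟩

end Pool.Agent.helper66.JS
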