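import Pool.Agent.helper66.JS2.Par
import Pool.Agent.helper54.JS.K1

/-!
# Module Q: the input words are computable in polynomial time
-/

set_option autoImplicit false

namespace Pool.Agent.helper66.JS

namespace Qm

open Pool.Agent.H54.PT N487b59b3 Blk Par K1

/-! ### Header -/

/-- the code of the `j`-th type -/
def dd (T : List Job) (j : ℕ) : List Bool := delimit (bitEncode (T.getD j []))

def Wt (T : List Job) : ℕ := ∑ j ∈ Finset.range T.length, (dd T j).length

lemma dd_le (T : List Job) (j : ℕ) (hj : j < T.length) : (dd T j).length ≤ Wt T :=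
  Finset.single_le_sum (f := fun j => (dd T j).length) (fun _ _ => Nat.zero_le _)
    (Finset.mem_range.2 hj)

def ent (T : List Job) (i : ℕ) : ℕ :=
  if i % (Wt T + 1) = 0 then (dd T (i / (Wt T + 1))).length
  else ((dd T (i / (Wt T + 1))).getD (i % (Wt T + 1) - 1) false).toNat

def numsT (k R : ℕ) (T : List Job) : List ℕ :=
  k :: R :: T.length :: Wt T :: (List.range (T.length * (Wt T + 1))).map (ent T)

lemma len_numsT (k R : ℕ) (T : List Job) : (numsT k R T).length = 4 + T.length * (Wt T + 1) := by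
  simp [numsT]; omega

lemma numsT_ent (k R : ℕ) (T : List Job) (i : ℕ) (hi : i < T.length * (Wt T + 1)) :
    (numsT k R T).getD (4 + i) 0 = ent T i := by
  unfold numsT
  rw [show 4 + i = i + 1 + 1 + 1 + 1 from by omega]
  simp only [List.getD_cons_succ]
  rw [List.getD_eq_getElem _ _ (by simpa using hi), List.getElem_map, List.getElem_range]

/-! ### Parsing of the whole word -/

def kk (w : List Bool) : ℕ := blkj w 0
def RR (w : List Bool) : ℕ := blkj w 1
def rr (w : List Bool) : ℕ := blkj w 2
def WW (w : List Bool) : ℕ := blkj w 3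
def hh (w : List Bool) : ℕ := epos w (4 + rr w * (WW w + 1))
def le0 (w : List Bool) : ℕ := w.length - hh w
def bt (w : List Bool) (i : ℕ) : Bool := w.getD (hh w + i) false
def nn (w : List Bool) : ℕ :=
  ((Finset.range w.length).filter (fun i => ∀ l < i + 1, bt w (2 * l) = true)).card
def yb (w : List Bool) (i : ℕ) : Bool := bt w (2 * i + 1)
def cap (w : List Bool) : ℕ := (kk w + 1) * (le0 w + 1)
open Classical in
noncomputable def ell (w : List Bool) : ℕ :=
  ((Finset.range (cap w + 1)).filter (fun t => IsP 2 t)).card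
def rl (w : List Bool) (j : ℕ) : ℕ := blkj w (4 + j * (WW w + 1))
def rb (w : List Bool) (j l : ℕ) : ℕ := blkj w (4 + (j * (WW w + 1) + (1 + l)))

/-- condition for a block start at `i` -/
def sp (w : List Bool) (i : ℕ) : Prop :=
  i = 0 ∨ (Par.run (yb w) (i - 1) % 2 = 0 ∧ ¬ yb w (i - 1) = true)

/-- condition for an occurrence of the code of type `j` at `i` -/
def mp (w : List Bool) (j i : ℕ) : Prop :=
  i + rl w j ≤ nn w ∧ ∀ l < rl w j, (yb w (i + l) = true ↔ rb w j l = 1)

open Classical in
noncomputable def cnt (w : List Bool) (j : ℕ) : ℕ :=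
  ((Finset.range (nn w)).filter (fun i => sp w i ∧ mp w j i)).card
def zl (w : List Bool) : ℕ := le0 w - (2 * nn w + 1)
def zb (w : List Bool) (i : ℕ) : Bool := bt w (2 * nn w + 1 + i)

/-- some bit of the makespan bound is too large -/
def big (w : List Bool) : Prop := ∃ i < zl w, ell w ≤ i ∧ zb w i = true

open Classical in
noncomputable def Lc (w : List Bool) : ℕ :=
  if big w then cap w
  else min (cap w) (∑ i ∈ Finset.range (zl w), if zb w i = true then pw 2 (cap w) i else 0)

noncomputable def CC (w : List Bool) (j : ℕ) : ℕ :=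
  if j < rr w then cnt w j else if j = rr w then Lc w else 0

noncomputable def FF (w : List Bool) : List Bool :=
  false :: (List.range (RR w * ell w)).map (fun i =>
    decide (CC w (i % RR w) / pw 2 (cap w) (i / RR w) % 2 = 1))

/-! ### Bits of numbers -/

/-- value of a word, least bit first -/
def bv (l : List Bool) : ℕ := ∑ i ∈ Finset.range l.length, if l.getD i false = true then 2 ^ i else 0

lemma bv_cons (b : Bool) (l : List Bool) : bv (b :: l) = b.toNat + 2 * bv l := by
  unfold bv
  rw [List.length_cons, Finset.sum_range_succ', Finset.mul_sum, add_comm]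
  congr 1
  · cases b <;> simp
  · refine Finset.sum_congr rfl fun i _ => ?_
    rw [List.getD_cons_succ]
    split_ifs
    · rw [pow_succ]; ring
    · rfl

lemma bv_pos (n : PosNum) : bv (Computability.encodePosNum n) = (n : ℕ) := by
  induction n with
  | one => simp [Computability.encodePosNum, bv]
  | bit1 n ih =>
    rw [Computability.encodePosNum, bv_cons, ih, PosNum.cast_bit1]
    simp
    omega
  | bit0 n ih =>
    rw [Computability.encodePosNum, bv_cons, ih, PosNum.cast_bit0]
    simp
    omega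

lemma bv_nat (n : ℕ) : bv (bitEncode n) = n := by
  change bv (Computability.encodeNum (n : Num)) = n
  have h : ((n : Num) : ℕ) = n := Num.to_of_nat n
  generalize (n : Num) = m at h
  cases m with
  | zero => rw [← h]; rfl
  | pos p =>
    rw [← h]
    exact bv_pos p

/-! ### Correctness -/

section correct

variable (k R : ℕ) (T : List Job) (I : Inst)

/-- the input -/
def inp : List Bool := ublk (numsT k R T) ++ bitEncode I

lemma kk_inp : kk (inp k R T I) = k := blkj_ublk _ _ 0 (by rw [len_numsT]; omega)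
lemma RR_inp : RR (inp k R T I) = R := blkj_ublk _ _ 1 (by rw [len_numsT]; omega)
lemma rr_inp : rr (inp k R T I) = T.length := blkj_ublk _ _ 2 (by rw [len_numsT]; omega)
lemma WW_inp : WW (inp k R T I) = Wt T := blkj_ublk _ _ 3 (by rw [len_numsT]; omega)

lemma hh_inp : hh (inp k R T I) = (ublk (numsT k R T)).length := by
  unfold hh
  rw [rr_inp, WW_inp, ← len_numsT k R T]
  exact epos_ublk _ _

lemma le0_inp : le0 (inp k R T I) = (bitEncode I).length := by
  unfold le0
  rw [hh_inp]
  unfold inp
  rw [List.length_append]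
  omega

lemma bt_inp (i : ℕ) : bt (inp k R T I) i = (bitEncode I).getD i false := by
  unfold bt
  rw [hh_inp]
  exact getD_after _ _ i

lemma enc_inst : bitEncode I = delimit (bitEncode I.1) ++ bitEncode I.2 := rfl

lemma nn_inp : nn (inp k R T I) = (bitEncode I.1).length := by
  unfold nn
  have : (Finset.range (inp k R T I).length).filter
      (fun i => ∀ l < i + 1, bt (inp k R T I) (2 * l) = true) =
      Finset.range (bitEncode I.1).length := by
    ext i
    rw [Finset.mem_filter, Finset.mem_range, Finset.mem_range]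
    simp only [bt_inp, enc_inst]
    constructor
    · rintro ⟨_, h⟩
      by_contra hcon
      have := h (bitEncode I.1).length (by omega)
      rw [dl_end] at this
      cases this
    · intro h
      refine ⟨?_, fun l hl => (dl_getD _ _ l (by omega)).1⟩
      unfold inp
      rw [enc_inst, List.length_append, List.length_append, length_delimit]
      omega
  rw [this, Finset.card_range]

lemma yb_inp (i : ℕ) (hi : i < (bitEncode I.1).length) :
    yb (inp k R T I) i = (bitEncode I.1).getD i false := by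
  unfold yb
  rw [bt_inp, enc_inst]
  exact (dl_getD _ _ i hi).2

lemma cap_inp : cap (inp k R T I) = capJ k (bitEncode I).length := by
  unfold cap capJ
  rw [kk_inp, le0_inp]

lemma ell_inp : ell (inp k R T I) = ellJ k (bitEncode I).length := by
  classical
  unfold ell ellJ
  rw [cap_inp]
  set c := capJ k (bitEncode I).length with hc
  have hc0 : c ≠ 0 := by rw [hc]; unfold capJ; positivity
  have : (Finset.range (c + 1)).filter (fun t => IsP 2 t) =
      (Finset.range (Nat.log 2 c + 1)).image (fun j => 2 ^ j) := by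
    ext s
    simp only [Finset.mem_filter, Finset.mem_range, Finset.mem_image, isP_iff Nat.prime_two]
    constructor
    · rintro ⟨h1, j, rfl⟩
      exact ⟨j, Nat.lt_succ_of_le (Nat.le_log_of_pow_le (by norm_num) (by omega)), rfl⟩
    · rintro ⟨j, hj, rfl⟩
      exact ⟨Nat.lt_succ_of_le (Nat.pow_le_of_le_log hc0 (by omega)), j, rfl⟩
  rw [this, Finset.card_image_of_injective _ (Nat.pow_right_injective (by norm_num)),
    Finset.card_range]

lemma rl_inp (j : ℕ) (hj : j < T.length) : rl (inp k R T I) j = (dd T j).length := by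
  unfold rl
  rw [WW_inp]
  have h1 : j * (Wt T + 1) < T.length * (Wt T + 1) := Nat.mul_lt_mul_of_pos_right hj (by omega)
  unfold inp
  rw [blkj_ublk _ _ _ (by rw [len_numsT]; omega), numsT_ent _ _ _ _ h1]
  unfold ent
  rw [Nat.mul_mod_left, if_pos rfl, Nat.mul_div_cancel _ (by omega)]

lemma rb_inp (j l : ℕ) (hj : j < T.length) (hl : l < (dd T j).length) :
    rb (inp k R T I) j l = ((dd T j).getD l false).toNat := by
  unfold rb
  rw [WW_inp]
  have hl' : l < Wt T := lt_of_lt_of_le hl (dd_le T j hj)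
  have h1 : j * (Wt T + 1) + (1 + l) < T.length * (Wt T + 1) := by
    calc j * (Wt T + 1) + (1 + l) < j * (Wt T + 1) + (Wt T + 1) := by omega
      _ = (j + 1) * (Wt T + 1) := by ring
      _ ≤ _ := Nat.mul_le_mul_right _ hj
  unfold inp
  rw [blkj_ublk _ _ _ (by rw [len_numsT]; omega), numsT_ent _ _ _ _ h1]
  unfold ent
  have e1 : (j * (Wt T + 1) + (1 + l)) % (Wt T + 1) = 1 + l := by
    rw [Nat.add_comm (j * (Wt T + 1)), Nat.add_mul_mod_self_right, Nat.mod_eq_of_lt (by omega)]
  have e2 : (j * (Wt T + 1) + (1 + l)) / (Wt T + 1) = j := by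
    rw [mul_comm, Nat.mul_add_div (by omega), Nat.div_eq_of_lt (by omega), add_zero]
  rw [e1, e2, if_neg (by omega)]
  congr 2
  omega

lemma run_congr {g g' : ℕ → Bool} (i : ℕ) (h : ∀ l < i, g l = g' l) :
    Par.run g i = Par.run g' i := by
  unfold Par.run
  congr 1
  refine Finset.filter_congr fun j _ => ?_
  refine forall_congr' fun l => forall_congr' fun hl => forall_congr' fun _ => ?_
  rw [h l hl]

lemma sp_inp (i : ℕ) (hi : i < (bitEncode I.1).length) :
    sp (inp k R T I) i ↔ stt (gt (bitEncode I.1)) i = true := by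
  unfold sp
  cases i with
  | zero => simp [stt]
  | succ i =>
    have h1 : stt (gt (bitEncode I.1)) (i + 1) =
        (fl (gt (bitEncode I.1)) i && !(bitEncode I.1).getD i false) := rfl
    rw [h1, fl_eq, Nat.add_sub_cancel, yb_inp k R T I i (by omega),
      run_congr i (g' := gt (bitEncode I.1)) (fun l hl => yb_inp k R T I l (by omega))]
    simp

lemma mp_inp (j i : ℕ) (hj : j < T.length) (_hi : i < (bitEncode I.1).length) :
    mp (inp k R T I) j i ↔ Mt (bitEncode I.1) (dd T j) i := by
  unfold mp Mt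
  rw [rl_inp k R T I j hj, nn_inp]
  refine and_congr_right fun h => forall_congr' fun l => forall_congr' fun hl => ?_
  rw [yb_inp k R T I _ (by omega), rb_inp k R T I j l hj hl]
  cases (dd T j).getD l false <;> simp

lemma cnt_inp (j : ℕ) (hj : j < T.length) : cnt (inp k R T I) j = I.1.count (T.getD j []) := by
  classical
  rw [← cntB_list]
  unfold cnt cntB
  rw [nn_inp]
  congr 1
  refine Finset.filter_congr fun i hi => ?_
  rw [Finset.mem_range] at hi
  exact and_congr (sp_inp k R T I i hi) (mp_inp k R T I j i hj hi)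

lemma zl_inp : zl (inp k R T I) = (bitEncode I.2).length := by
  unfold zl
  rw [le0_inp, nn_inp, enc_inst, List.length_append, length_delimit]
  omega

lemma zb_inp (i : ℕ) : zb (inp k R T I) i = (bitEncode I.2).getD i false := by
  unfold zb
  rw [bt_inp, nn_inp, enc_inst]
  have := getD_after (delimit (bitEncode I.1)) (bitEncode I.2) i
  rwa [length_delimit] at this

lemma bit_le (c i : ℕ) (hc : c ≠ 0) (h : i < Nat.log 2 c + 1) : 2 ^ i ≤ c :=
  Nat.pow_le_of_le_log hc (by omega)

lemma Lc_inp : Lc (inp k R T I) = min I.2 (capJ k (bitEncode I).length) := by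
  classical
  unfold Lc big
  simp only [zl_inp, zb_inp, ell_inp, cap_inp]
  set c := capJ k (bitEncode I).length with hc
  have hc0 : c ≠ 0 := by rw [hc]; unfold capJ; positivity
  split_ifs with h
  · obtain ⟨i, hi, h1, h2⟩ := h
    have h3 : 2 ^ i ≤ I.2 := by
      rw [← bv_nat I.2]
      unfold bv
      have := Finset.single_le_sum (f := fun i => if (bitEncode I.2).getD i false = true then
        2 ^ i else 0) (fun _ _ => Nat.zero_le _) (Finset.mem_range.2 hi)
      simp only [h2, if_true] at this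
      exact this
    have h4 : c < 2 ^ i := by
      unfold ellJ at h1
      rw [← hc] at h1
      exact Nat.lt_pow_of_log_lt (by norm_num) (by omega)
    omega
  · have : ∑ i ∈ Finset.range (bitEncode I.2).length,
        (if (bitEncode I.2).getD i false = true then pw 2 c i else 0) = I.2 := by
      rw [← bv_nat I.2]
      conv_rhs => unfold bv
      rw [bv_nat]
      refine Finset.sum_congr rfl fun i hi => ?_
      split_ifs with h1
      · rw [pw_eq Nat.prime_two]
        refine bit_le c i hc0 ?_
        by_contra hcon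
        exact h ⟨i, Finset.mem_range.1 hi, by unfold ellJ; rw [← hc]; omega, h1⟩
      · rfl
    rw [this, min_comm]

lemma CC_inp (j : ℕ) : CC (inp k R T I) j =
    c0J T I.1 (min I.2 (capJ k (bitEncode I).length)) j := by
  unfold CC c0J
  rw [rr_inp, Lc_inp]
  split_ifs with h
  · exact cnt_inp k R T I j h
  · rfl
  · rfl

lemma FF_inp : FF (inp k R T I) = wdJ R T k I := by
  unfold FF wdJ
  rw [RR_inp, ell_inp, cap_inp]
  congr 1
  refine List.map_congr_left fun i hi => ?_
  rw [List.mem_range] at hi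
  rw [CC_inp, Nat.testBit_eq_decide_div_mod_eq, pw_eq Nat.prime_two]
  refine bit_le _ _ (by unfold capJ; positivity) ?_
  exact Nat.div_lt_of_lt_mul hi

end correct

/-! ### Polynomial time -/

lemma cp_kk' : Cp (fun w _ => kk w) := cp_blkj (Cp.const 0)
lemma cp_RR : Cp (fun w _ => RR w) := cp_blkj (Cp.const 1)
lemma cp_rr : Cp (fun w _ => rr w) := cp_blkj (Cp.const 2)
lemma cp_WW : Cp (fun w _ => WW w) := cp_blkj (Cp.const 3)
lemma cp_hh : Cp (fun w _ => hh w) := cp_epos ((Cp.const 4).add (cp_rr.mul cp_WW.succ))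
lemma cp_le0 : Cp (fun w _ => le0 w) := Cp.len.sub cp_hh

lemma cq_bt {e : Fn} (he : Cp e) : Cq (fun w v => bt w (e w v) = true) := Cq.bit (cp_hh.add he)

lemma cp_nn' : Cp (fun w _ => nn w) :=
  Cp.count (P := fun w _ i => ∀ l < i + 1, bt w (2 * l) = true) Cp.len
    (Cq.all' (P := fun w _ l => bt w (2 * l) = true) (Cp.var 0).succ
      (cq_bt ((Cp.const 2).mul (Cp.var 0))))

lemma cq_yb {e : Fn} (he : Cp e) : Cq (fun w v => yb w (e w v) = true) :=
  cq_bt (((Cp.const 2).mul he).succ)

lemma cp_cap : Cp (fun w _ => cap w) := cp_kk'.succ.mul cp_le0.succ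

lemma cp_ell : Cp (fun w _ => ell w) := by
  classical
  exact Cp.count (P := fun _ _ t => IsP 2 t) cp_cap.succ (cq_isP 2)

lemma cp_rl {e : Fn} (he : Cp e) : Cp (fun w v => rl w (e w v)) :=
  cp_blkj ((Cp.const 4).add (he.mul cp_WW.succ))

lemma cp_rb {e f : Fn} (he : Cp e) (hf : Cp f) : Cp (fun w v => rb w (e w v) (f w v)) :=
  cp_blkj ((Cp.const 4).add ((he.mul cp_WW.succ).add ((Cp.const 1).add hf)))

lemma cp_run {e : Fn} (he : Cp e) : Cp (fun w v => Par.run (yb w) (e w v)) := by
  refine Cp.comp1 (g := fun w i => Par.run (yb w) i) ?_ he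
  refine Cp.count (P := fun w v j => ∀ l < v 0, j ≤ l → yb w l = true) (Cp.var 0) ?_
  refine Cq.all' (P := fun w v l => v 0 ≤ l → yb w l = true) (Cp.var 1) ?_
  exact (Cq.le (Cp.var 1) (Cp.var 0)).imp (cq_yb (Cp.var 0))

lemma cq_sp {e : Fn} (he : Cp e) : Cq (fun w v => sp w (e w v)) := by
  have h1 := he.sub (Cp.const 1)
  exact (Cq.eq he (Cp.const 0)).or ((Cq.eq ((cp_run h1).mod (Cp.const 2)) (Cp.const 0)).and
    (cq_yb h1).not)

lemma cq_mp {e f : Fn} (he : Cp e) (hf : Cp f) : Cq (fun w v => mp w (e w v) (f w v)) := by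
  refine Cq.comp2 (g := fun w j i => mp w j i) ?_ he hf
  refine (Cq.le ((Cp.var 1).add (cp_rl (Cp.var 0))) cp_nn').and ?_
  refine Cq.all' (P := fun w v l => (yb w (v 1 + l) = true ↔ rb w (v 0) l = 1))
    (cp_rl (Cp.var 0)) ?_
  exact (cq_yb ((Cp.var 2).add (Cp.var 0))).iff (Cq.eq (cp_rb (Cp.var 1) (Cp.var 0)) (Cp.const 1))

lemma cp_cnt {e : Fn} (he : Cp e) : Cp (fun w v => cnt w (e w v)) := by
  classical
  exact Cp.count (P := fun w v i => sp w i ∧ mp w (e w v) i) cp_nn'
    ((cq_sp (Cp.var 0)).and (cq_mp (he.rename (· + 1)) (Cp.var 0)))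

lemma cp_zl : Cp (fun w _ => zl w) := cp_le0.sub (((Cp.const 2).mul cp_nn').succ)

lemma cq_zb {e : Fn} (he : Cp e) : Cq (fun w v => zb w (e w v) = true) :=
  cq_bt ((((Cp.const 2).mul cp_nn').succ).add he)

lemma cq_big : Cq (fun w _ => big w) :=
  Cq.ex' (P := fun w _ i => ell w ≤ i ∧ zb w i = true) cp_zl
    ((Cq.le cp_ell (Cp.var 0)).and (cq_zb (Cp.var 0)))

lemma cp_Lc : Cp (fun w _ => Lc w) := by
  classical
  refine Cp.ite cq_big cp_cap (cp_cap.min ?_)
  refine Cp.sum' (f := fun w _ i => if zb w i = true then pw 2 (cap w) i else 0) cp_zl ?_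
  exact Cp.ite (cq_zb (Cp.var 0)) (cp_pw 2 cp_cap (Cp.var 0)) (Cp.const 0)

lemma cp_CC {e : Fn} (he : Cp e) : Cp (fun w v => CC w (e w v)) :=
  Cp.ite (Cq.lt he cp_rr) (cp_cnt he) (Cp.ite (Cq.eq he cp_rr) cp_Lc (Cp.const 0))

lemma de_FF : De (fun w _ => FF w) := by
  refine De.cons (De.word false) (De.map (F := fun w _ i =>
    decide (CC w (i % RR w) / pw 2 (cap w) (i / RR w) % 2 = 1)) (cp_RR.mul cp_ell) ?_)
  refine De.bool (P := fun w v => CC w (v 0 % RR w) / pw 2 (cap w) (v 0 / RR w) % 2 = 1) ?_
  exact Cq.eq (((cp_CC ((Cp.var 0).mod cp_RR)).div (cp_pw 2 cp_cap ((Cp.var 0).div cp_RR))).mod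
    (Cp.const 2)) (Cp.const 1)

end Qm

theorem wd_poly : ∃ F : List Bool → List Bool, N68a2faeb.IsPolyTime F ∧
    ∀ (R : ℕ) (T : List Job) (k : ℕ), ∃ hdr : List Bool, ∀ I : Inst,
      F (hdr ++ N487b59b3.bitEncode I) = wdJ R T k I :=
  ⟨Qm.FF, Pool.Agent.H54.PT.isPolyTime Qm.de_FF, fun R T k => ⟨ublk (Qm.numsT k R T),
    fun I => Qm.FF_inp k R T I⟩⟩

end Pool.Agent.helper66.JS
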