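import Pool.Agent.helper66.JS.Defs3
import Pool.Agent.helper59.JS.A1

/-!
# Modules S1, S2: schedules and time steps
-/

set_option autoImplicit false

namespace Pool.Agent.helper66.JS

open Turing Finset

namespace S12

/-- times of the operations before number `i` -/
def Pp (J : Job) (i : ℕ) : ℕ := ∑ i' ∈ Finset.range i, (J.getD i' (0, 0)).2

lemma Pp_succ (J : Job) (i : ℕ) : Pp J (i + 1) = Pp J i + (J.getD i (0, 0)).2 :=
  Finset.sum_range_succ _ _

lemma Pp_cons (o : ℕ × ℕ) (J : Job) (i : ℕ) : Pp (o :: J) (i + 1) = o.2 + Pp J i := by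
  unfold Pp
  rw [Finset.sum_range_succ']
  simp [add_comm]

lemma Pp_mono (J : Job) {i j : ℕ} (h : i ≤ j) : Pp J i ≤ Pp J j :=
  Finset.sum_le_sum_of_subset (Finset.range_mono h)

lemma units_cons (o : ℕ × ℕ) (J : Job) : units (o :: J) =
    (List.range o.2).map (fun d => (o.1, decide (d = 0))) ++ units J := rfl

lemma units_len (J : Job) : (units J).length = Pp J J.length := by
  induction J with
  | nil => rfl
  | cons o J ih =>
    rw [units_cons, List.length_append, List.length_map, List.length_range, ih, List.length_cons,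
      Pp_cons]

lemma units_get (J : Job) : ∀ (i d : ℕ), i < J.length → d < (J.getD i (0, 0)).2 →
    (units J)[Pp J i + d]? = some ((J.getD i (0, 0)).1, decide (d = 0)) := by
  induction J with
  | nil => intro i d hi; simp at hi
  | cons o J ih =>
    intro i d hi hd
    cases i with
    | zero =>
      have e : Pp (o :: J) 0 = 0 := rfl
      rw [e, zero_add, units_cons, List.getElem?_append_left (by simpa using hd)]
      have hd' : d < o.2 := by simpa using hd
      rw [List.getElem?_map, List.getElem?_range hd']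
      rfl
    | succ i =>
      rw [Pp_cons, units_cons, List.getElem?_append_right (by simp; omega)]
      have e : o.2 + Pp J i + d - (List.map (fun d => (o.1, decide (d = 0)))
          (List.range o.2)).length = Pp J i + d := by
        rw [List.length_map, List.length_range]; omega
      rw [e, List.getD_cons_succ]
      exact ih i d (by simpa using hi) (by simpa using hd)

lemma cur_get (js : List Job) (p : ℕ → ℕ) (ν i d : ℕ) (hi : i < (js.getD ν []).length)
    (hd : d < ((js.getD ν []).getD i (0, 0)).2) (hp : p ν = Pp (js.getD ν []) i + d) :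
    cur js p ν = (((js.getD ν []).getD i (0, 0)).1, decide (d = 0)) := by
  unfold cur
  rw [hp, List.getD_eq_getElem?_getD, units_get _ i d hi hd]
  rfl

lemma isOp_iff (js : List Job) (ν i : ℕ) (hν : ν < js.length) (hi : i < (js.getD ν []).length) :
    IsOp js ν i ((js.getD ν []).getD i (0, 0)).1 ((js.getD ν []).getD i (0, 0)).2 := by
  refine ⟨js.getD ν [], ?_, ?_⟩
  · rw [List.getD_eq_getElem _ _ hν, List.getElem?_eq_getElem hν]
  · rw [List.getElem?_eq_getElem hi, List.getD_eq_getElem _ _ hi]

lemma isOp_data {js : List Job} {ν i m p : ℕ} (h : IsOp js ν i m p) :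
    ν < js.length ∧ i < (js.getD ν []).length ∧ (js.getD ν []).getD i (0, 0) = (m, p) := by
  obtain ⟨J, h1, h2⟩ := h
  obtain ⟨hν, rfl⟩ := List.getElem?_eq_some_iff.1 h1
  obtain ⟨hi, h3⟩ := List.getElem?_eq_some_iff.1 h2
  rw [List.getD_eq_getElem _ _ hν]
  exact ⟨hν, hi, by rw [List.getD_eq_getElem _ _ hi, h3]⟩

/-! ### positions from start times -/

section pos

variable (J : Job) (s : ℕ → ℕ)

/-- time of operation `i` -/
def pt (i : ℕ) : ℕ := (J.getD i (0, 0)).2

/-- position at time `t`, first `n` operations -/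
def A (t n : ℕ) : ℕ := ∑ i ∈ Finset.range n, min (pt J i) (t - s i)

variable (n : ℕ) (hs : ∀ i, i + 1 < n → s i + pt J i ≤ s (i + 1))

include hs

lemma s_mono : ∀ i' < n, ∀ i < i', s i + pt J i ≤ s i' := by
  intro i'
  induction i' with
  | zero => intro _ i hi; omega
  | succ i' ih =>
    intro h i hi
    have h1 := hs i' h
    rcases Nat.lt_succ_iff_lt_or_eq.1 hi with h2 | rfl
    · have := ih (by omega) i h2
      omega
    · exact h1

omit hs in
lemma A_done (t : ℕ) (k : ℕ) (h : ∀ i < k, s i + pt J i ≤ t) : A J s t k = Pp J k := by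
  unfold A Pp
  refine Finset.sum_congr rfl fun i hi => ?_
  have := h i (Finset.mem_range.1 hi)
  unfold pt at *
  omega

lemma A_run (t i : ℕ) (hi : i < n) (h1 : s i ≤ t) (h2 : t < s i + pt J i) :
    A J s t n = Pp J i + (t - s i) := by
  have hm := s_mono J s n hs
  have h3 : A J s t i = Pp J i := A_done J s t i (fun i' hi' => (hm i hi i' hi').trans h1)
  have h4 : ∀ k, i + 1 + k ≤ n → A J s t (i + 1 + k) = Pp J i + (t - s i) := by
    intro k
    induction k with
    | zero =>
      intro _
      unfold A at h3 ⊢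
      rw [add_zero, Finset.sum_range_succ, h3]
      omega
    | succ k ih =>
      intro hk
      have h5 := ih (by omega)
      unfold A at h5 ⊢
      rw [show i + 1 + (k + 1) = i + 1 + k + 1 from rfl, Finset.sum_range_succ, h5]
      have := hm (i + 1 + k) (by omega) i (by omega)
      omega
  have := h4 (n - (i + 1)) (by omega)
  rwa [show i + 1 + (n - (i + 1)) = n from by omega] at this

lemma A_idle (t : ℕ) (h : ∀ i < n, ¬ (s i ≤ t ∧ t < s i + pt J i)) :
    ∃ k ≤ n, A J s t n = Pp J k := by
  have hm := s_mono J s n hs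
  have : ∀ k ≤ n, ∃ k' ≤ k, A J s t k = Pp J k' := by
    intro k
    induction k with
    | zero => intro _; exact ⟨0, le_rfl, rfl⟩
    | succ k ih =>
      intro hk
      rcases Nat.lt_or_ge t (s k) with h1 | h1
      · obtain ⟨k', hk', e⟩ := ih (by omega)
        refine ⟨k', by omega, ?_⟩
        unfold A at e ⊢
        rw [Finset.sum_range_succ, e]
        omega
      · refine ⟨k + 1, le_rfl, A_done J s t _ fun i hi => ?_⟩
        have h2 := h k (by omega)
        rcases Nat.lt_succ_iff_lt_or_eq.1 hi with h3 | rfl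
        · have := hm k (by omega) i h3
          omega
        · omega
  exact this n le_rfl

open Classical in
lemma A_step (t : ℕ) : A J s (t + 1) n = A J s t n +
    (if ∃ i < n, s i ≤ t ∧ t < s i + pt J i then 1 else 0) := by
  have hm := s_mono J s n hs
  have h1 : A J s (t + 1) n = A J s t n +
      ∑ i ∈ Finset.range n, (if s i ≤ t ∧ t < s i + pt J i then 1 else 0) := by
    unfold A
    rw [← Finset.sum_add_distrib]
    refine Finset.sum_congr rfl fun i _ => ?_
    split_ifs with h
    · omega
    · omega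
  rw [h1]
  congr 1
  split_ifs with h
  · obtain ⟨i, hi, h2⟩ := h
    rw [Finset.sum_eq_single i]
    · rw [if_pos h2]
    · intro i' hi' hne
      rw [if_neg]
      intro h3
      rw [Finset.mem_range] at hi'
      rcases Nat.lt_or_gt_of_ne hne with h4 | h4
      · have := hm i hi i' h4; omega
      · have := hm i' hi' i h4; omega
    · intro h3; exact absurd (Finset.mem_range.2 hi) h3
  · refine Finset.sum_eq_zero fun i hi => ?_
    rw [if_neg]
    intro h2
    exact h ⟨i, Finset.mem_range.1 hi, h2⟩

end pos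

end S12

open S12

theorem jrun_of_feasible (js : List Job) (L : ℕ) (hp : ∀ J ∈ js, ∀ o ∈ J, 0 < o.2)
    (h : Feasible (js, L)) : JRun js L := by
  classical
  obtain ⟨s, hs⟩ := (feasible_iff _ _).1 h
  let pos : ℕ → ℕ → ℕ := fun t ν => A (js.getD ν []) (s ν) t (js.getD ν []).length
  have hop : ∀ ν < js.length, ∀ i < (js.getD ν []).length,
      IsOp js ν i ((js.getD ν []).getD i (0, 0)).1 ((js.getD ν []).getD i (0, 0)).2 :=
    fun ν hν i hi => isOp_iff js ν i hν hi
  have hord : ∀ ν < js.length, ∀ i, i + 1 < (js.getD ν []).length →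
      s ν i + pt (js.getD ν []) i ≤ s ν (i + 1) := fun ν hν i hi =>
    hs.order ν i _ _ _ _ (hop ν hν i (by omega)) (hop ν hν (i + 1) hi)
  have hpos : ∀ ν < js.length, ∀ i < (js.getD ν []).length, 0 < pt (js.getD ν []) i := by
    intro ν hν i hi
    refine hp (js.getD ν []) ?_ _ ?_
    · rw [List.getD_eq_getElem _ _ hν]; exact List.getElem_mem hν
    · rw [List.getD_eq_getElem _ _ hi]; exact List.getElem_mem hi
  have hrun : ∀ t, ∀ ν < js.length, pos (t + 1) ν ≠ pos t ν →
      ∃ i < (js.getD ν []).length, s ν i ≤ t ∧ t < s ν i + pt (js.getD ν []) i := by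
    intro t ν hν hne
    by_contra hcon
    apply hne
    show A _ _ _ _ = A _ _ _ _
    rw [A_step _ _ _ (hord ν hν), if_neg hcon, add_zero]
  have hcur : ∀ t, ∀ ν < js.length, ∀ i < (js.getD ν []).length, s ν i ≤ t →
      t < s ν i + pt (js.getD ν []) i →
      cur js (pos t) ν = (((js.getD ν []).getD i (0, 0)).1, decide (t - s ν i = 0)) := by
    intro t ν hν i hi h1 h2
    refine cur_get js _ ν i (t - s ν i) hi ?_ (A_run _ _ _ (hord ν hν) t i hi h1 h2)
    unfold pt at h2
    omega
  refine ⟨pos, ?_, ?_, ?_⟩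
  · intro ν _
    show A _ _ _ _ = 0
    unfold A
    refine Finset.sum_eq_zero fun i _ => ?_
    omega
  · intro t _
    refine ⟨?_, ?_, ?_⟩
    · intro ν hν
      by_cases h1 : ∃ i < (js.getD ν []).length, s ν i ≤ t ∧ t < s ν i + pt (js.getD ν []) i
      · right
        obtain ⟨i, hi, h2, h3⟩ := h1
        refine ⟨?_, ?_⟩
        · show A _ _ _ _ = A _ _ _ _ + 1
          rw [A_step _ _ _ (hord ν hν), if_pos ⟨i, hi, h2, h3⟩]
        · show A _ _ _ _ < _
          rw [A_run _ _ _ (hord ν hν) t i hi h2 h3, units_len]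
          have h4 : Pp (js.getD ν []) (i + 1) ≤ Pp (js.getD ν []) (js.getD ν []).length :=
            Pp_mono _ hi
          rw [Pp_succ] at h4
          unfold pt at h3
          omega
      · left
        show A _ _ _ _ = A _ _ _ _
        rw [A_step _ _ _ (hord ν hν), if_neg h1, add_zero]
    · intro ν hν ν' hν' hne h1 h2 heq
      obtain ⟨i, hi, g1, g2⟩ := hrun t ν hν h1
      obtain ⟨i', hi', g1', g2'⟩ := hrun t ν' hν' h2
      rw [hcur t ν hν i hi g1 g2, hcur t ν' hν' i' hi' g1' g2'] at heq
      have o1 := hop ν hν i hi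
      have o2 := hop ν' hν' i' hi'
      change ((js.getD ν []).getD i (0, 0)).1 = ((js.getD ν' []).getD i' (0, 0)).1 at heq
      rw [heq] at o1
      have := hs.machine ν i ν' i' _ _ _ o1 o2 (by
        intro e; exact hne (Prod.mk.inj e).1)
      unfold pt at g2 g2'
      omega
    · intro ν hν hlt hc hnm
      have h1 : ∀ i < (js.getD ν []).length, ¬ (s ν i ≤ t ∧ t < s ν i + pt (js.getD ν []) i) := by
        intro i hi h2
        have : pos (t + 1) ν = pos t ν + 1 := by
          show A _ _ _ _ = A _ _ _ _ + 1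
          rw [A_step _ _ _ (hord ν hν), if_pos ⟨i, hi, h2⟩]
        omega
      obtain ⟨k, hk, e⟩ := A_idle _ _ _ (hord ν hν) t h1
      have e' : pos t ν = Pp (js.getD ν []) k := e
      have hk' : k < (js.getD ν []).length := by
        rcases Nat.lt_or_eq_of_le hk with h | h
        · exact h
        · rw [units_len, e', h] at hlt
          exact absurd hlt (lt_irrefl _)
      rw [cur_get js _ ν k 0 hk' (hpos ν hν k hk') (by rw [e', add_zero])] at hc
      simp at hc
  · intro ν hν
    rw [units_len]
    exact A_done _ _ _ _ fun i hi => hs.bound ν i _ _ (hop ν hν i hi)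

namespace S12

lemma ivt (f : ℕ → ℕ) (v : ℕ) : ∀ L, (∀ t < L, f (t + 1) = f t ∨ f (t + 1) = f t + 1) → f 0 ≤ v →
    v < f L → ∃ t < L, f t = v ∧ f (t + 1) = v + 1 := by
  intro L
  induction L with
  | zero => intro _ h1 h2; omega
  | succ L ih =>
    intro hs h1 h2
    rcases Nat.lt_or_ge v (f L) with h3 | h3
    · obtain ⟨t, ht, h⟩ := ih (fun t ht => hs t (by omega)) h1 h3
      exact ⟨t, by omega, h⟩
    · have := hs L (by omega)
      exact ⟨L, by omega, by omega, by omega⟩

lemma mono_of {f : ℕ → ℕ} {L : ℕ} (hs : ∀ t < L, f (t + 1) = f t ∨ f (t + 1) = f t + 1) :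
    ∀ {t t' : ℕ}, t ≤ t' → t' ≤ L → f t ≤ f t' := by
  intro t t' h
  induction t', h using Nat.le_induction with
  | base => intro _; exact le_rfl
  | succ t' _ ih =>
    intro h2
    have := hs t' (by omega)
    have := ih (by omega)
    omega

end S12

theorem feasible_of_jrun (js : List Job) (L : ℕ) (hp : ∀ J ∈ js, ∀ o ∈ J, 0 < o.2)
    (h : JRun js L) : Feasible (js, L) := by
  classical
  obtain ⟨p, h0, hst, hL⟩ := h
  have hpos : ∀ ν < js.length, ∀ i < (js.getD ν []).length, 0 < pt (js.getD ν []) i := by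
    intro ν hν i hi
    refine hp (js.getD ν []) ?_ _ ?_
    · rw [List.getD_eq_getElem _ _ hν]; exact List.getElem_mem hν
    · rw [List.getD_eq_getElem _ _ hi]; exact List.getElem_mem hi
  have hstep : ∀ ν < js.length, ∀ t < L, p (t + 1) ν = p t ν ∨ p (t + 1) ν = p t ν + 1 := by
    intro ν hν t ht
    rcases (hst t ht).mv ν hν with h | h
    · exact Or.inl h
    · exact Or.inr h.1
  have hex : ∀ ν < js.length, ∀ i < (js.getD ν []).length, ∃ t < L,
      p t ν = Pp (js.getD ν []) i ∧ p (t + 1) ν = Pp (js.getD ν []) i + 1 := by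
    intro ν hν i hi
    refine ivt (fun t => p t ν) _ L (hstep ν hν) (by rw [h0 ν hν]; exact Nat.zero_le _) ?_
    rw [hL ν hν, units_len]
    have h1 : Pp (js.getD ν []) (i + 1) ≤ Pp (js.getD ν []) (js.getD ν []).length := Pp_mono _ hi
    rw [Pp_succ] at h1
    have := hpos ν hν i hi
    unfold pt at this
    omega
  let s : ℕ → ℕ → ℕ := fun ν i =>
    if h : ν < js.length ∧ i < (js.getD ν []).length then Classical.choose (hex ν h.1 i h.2) else 0
  have hs : ∀ ν < js.length, ∀ i < (js.getD ν []).length, s ν i < L ∧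
      p (s ν i) ν = Pp (js.getD ν []) i ∧ p (s ν i + 1) ν = Pp (js.getD ν []) i + 1 := by
    intro ν hν i hi
    have e : s ν i = Classical.choose (hex ν hν i hi) := dif_pos ⟨hν, hi⟩
    rw [e]
    exact Classical.choose_spec (hex ν hν i hi)
  have hin : ∀ ν < js.length, ∀ i < (js.getD ν []).length, ∀ d ≤ pt (js.getD ν []) i,
      s ν i + d ≤ L ∧ p (s ν i + d) ν = Pp (js.getD ν []) i + d := by
    intro ν hν i hi d
    obtain ⟨g1, g2, g3⟩ := hs ν hν i hi
    induction d with
    | zero => intro _; exact ⟨by omega, by rw [add_zero, add_zero, g2]⟩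
    | succ d ih =>
      intro hd
      obtain ⟨k1, k2⟩ := ih (by omega)
      rcases Nat.eq_zero_or_pos d with rfl | hd0
      · exact ⟨by omega, g3⟩
      · have h1 : Pp (js.getD ν []) (i + 1) ≤ Pp (js.getD ν []) (js.getD ν []).length :=
          Pp_mono _ hi
        rw [Pp_succ] at h1
        have hd' : d < ((js.getD ν []).getD i (0, 0)).2 := by unfold pt at hd; omega
        have hlt : p (s ν i + d) ν < (units (js.getD ν [])).length := by
          rw [k2, units_len]; omega
        have hlt' : s ν i + d < L := by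
          rcases Nat.lt_or_eq_of_le k1 with h | h
          · exact h
          · rw [h, hL ν hν] at hlt
            exact absurd hlt (lt_irrefl _)
        have hc := cur_get js (p (s ν i + d)) ν i d hi hd' k2
        have hne := (hst _ hlt').ins ν hν hlt (by rw [hc]; simp; omega)
        refine ⟨by omega, ?_⟩
        rcases hstep ν hν _ hlt' with h | h
        · exact absurd h hne
        · rw [← add_assoc, ← add_assoc, h, k2]
  have hmono : ∀ ν < js.length, ∀ {t t' : ℕ}, t ≤ t' → t' ≤ L → p t ν ≤ p t' ν := fun ν hν =>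
    mono_of (f := fun t => p t ν) (hstep ν hν)
  have hord : ∀ ν < js.length, ∀ i i', i < i' → i' < (js.getD ν []).length →
      s ν i + pt (js.getD ν []) i ≤ s ν i' := by
    intro ν hν i i' hii hi'
    by_contra hcon
    obtain ⟨g1, g2⟩ := hin ν hν i (by omega) _ le_rfl
    obtain ⟨k1, k2, k3⟩ := hs ν hν i' hi'
    have h1 := hmono ν hν (t := s ν i' + 1) (t' := s ν i + pt (js.getD ν []) i) (by omega) g1
    have h2 : Pp (js.getD ν []) (i + 1) ≤ Pp (js.getD ν []) i' := Pp_mono _ hii
    rw [Pp_succ] at h2
    unfold pt at g2 h1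
    omega
  refine (feasible_iff _ _).2 ⟨s, ?_, ?_, ?_⟩
  · intro j i m q h
    obtain ⟨hν, hi, e⟩ := isOp_data h
    have := (hin j hν i hi _ le_rfl).1
    unfold pt at this
    rwa [e] at this
  · intro j i m q m' q' h h'
    obtain ⟨hν, hi, e⟩ := isOp_data h
    obtain ⟨_, hi', e'⟩ := isOp_data h'
    have := hord j hν i (i + 1) (by omega) hi'
    unfold pt at this
    rwa [e] at this
  · intro j i j' i' m q q' h h' hne
    obtain ⟨hν, hi, e⟩ := isOp_data h
    obtain ⟨hν', hi', e'⟩ := isOp_data h'
    by_cases hj : j = j'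
    · subst hj
      have hii : i ≠ i' := fun h => hne (by rw [h])
      rcases Nat.lt_or_gt_of_ne hii with h1 | h1
      · left
        have := hord j hν i i' h1 hi'
        unfold pt at this
        rwa [e] at this
      · right
        have := hord j hν i' i h1 hi
        unfold pt at this
        rwa [e'] at this
    · by_contra hcon
      push Not at hcon
      have ep : pt (js.getD j []) i = q := by unfold pt; rw [e]
      have ep' : pt (js.getD j' []) i' = q' := by unfold pt; rw [e']
      -- common time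
      obtain ⟨t, h1, h2, h3, h4⟩ : ∃ t, s j i ≤ t ∧ t < s j i + q ∧ s j' i' ≤ t ∧
          t < s j' i' + q' := by
        have hq : 0 < q := ep ▸ hpos j hν i hi
        have hq' : 0 < q' := ep' ▸ hpos j' hν' i' hi'
        rcases Nat.le_total (s j i) (s j' i') with h | h
        · exact ⟨s j' i', h, hcon.1, le_rfl, by omega⟩
        · exact ⟨s j i, le_rfl, by omega, h, hcon.2⟩
      have key : ∀ ν < js.length, ∀ i < (js.getD ν []).length, s ν i ≤ t →
          t < s ν i + pt (js.getD ν []) i → t < L ∧ p (t + 1) ν ≠ p t ν ∧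
          (cur js (p t) ν).1 = ((js.getD ν []).getD i (0, 0)).1 := by
        intro ν hν i hi g1 g2
        obtain ⟨k1, k2⟩ := hin ν hν i hi (t - s ν i) (by omega)
        obtain ⟨l1, l2⟩ := hin ν hν i hi (t + 1 - s ν i) (by omega)
        have e1 : s ν i + (t - s ν i) = t := by omega
        have e2 : s ν i + (t + 1 - s ν i) = t + 1 := by omega
        rw [e1] at k1 k2
        rw [e2] at l1 l2
        refine ⟨by omega, by omega, ?_⟩
        have hd : t - s ν i < ((js.getD ν []).getD i (0, 0)).2 := by
          unfold pt at g2; omega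
        rw [cur_get js (p t) ν i _ hi hd k2]
      obtain ⟨a1, a2, a3⟩ := key j hν i hi h1 (by rw [ep]; exact h2)
      obtain ⟨_, b2, b3⟩ := key j' hν' i' hi' h3 (by rw [ep']; exact h4)
      refine (hst t a1).ne j hν j' hν' hj a2 b2 ?_
      rw [a3, b3, e, e']

end Pool.Agent.helper66.JS
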