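import Pool.Agent.helper66.JS.Main
import Pool.Agent.helper66.JS2.L
import Pool.Agent.helper66.JS2.M12
import Pool.Agent.helper66.JS2.S
import Pool.Agent.helper66.JS2.Q
import Pool.Agent.helper63.JS2.N1
import Pool.Agent.helper63.JS2.N2
import Pool.Agent.helper63.JS2.K2
import Pool.Agent.helper23.JS2.P1
import Pool.Agent.helper23.JS2.P2

/-!
# Exact characterization: assembly
-/

set_option autoImplicit false

namespace Pool.Agent.helper66.JS

open Turing Finset

open T3 in
/-- forward direction -/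
theorem collapse_of_slice (h : SliceFPT) : Collapse := by
  classical
  obtain ⟨e, he⟩ := h
  obtain ⟨F, ⟨hF⟩, hFeq⟩ := red_univ
  obtain ⟨a, d, had⟩ := poly_bound hF.time
  set G := (d + 1) * (e + 1) with hG
  have hG1 : 0 < G := by positivity
  refine ⟨G, hG1, ?_⟩
  intro m hm X hX
  obtain ⟨δ, c, D0, hXe, hacc⟩ := hX
  obtain ⟨B, Q, hp, hB⟩ := exists_bok δ
  rw [mul_comm G m] at hacc
  set m' := m * G with hm'
  have hm1 : 0 < m' := Nat.mul_pos hm hG1
  set k := c * B * m' + 1 with hk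
  have hk0 : 0 < k := by omega
  set D := D0 + 2 ^ (B + 1) with hD
  let N : List Bool → ℕ := fun x => D * 2 ^ (x.length / m')
  have hN1 : ∀ x : List Bool, B ^ (c * (x.length + 1) / k + 1) ≤ N x := fun x => by
    refine (block_bound B c m' x.length k hm1 hk).trans (Nat.mul_le_mul_right _ ?_)
    omega
  have hN2 : ∀ x : List Bool, Accepts δ x → AcceptsIn δ x (c * (x.length + 1)) (N x) := by
    intro x hx
    exact acc_mono (hacc x (by rw [hXe]; exact hx)) (Nat.mul_le_mul_right _ (Nat.le_add_right _ _))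
  have hiff : ∀ x : List Bool, Feasible (theInst δ B Q c k (N x) x) ↔ x ∈ X := fun x => by
    rw [hXe]
    exact theInst_iff δ B Q c k (N x) hB hk0 x (hN1 x) (hN2 x)
  obtain ⟨C3, tm3, ei3, eo3, h3⟩ := he (12 * ((32 * B * B * Q * k * (δ.length + 1) + 1) *
      (2 * (2 + 16 * B * B * Q * k + (2 * k + 4)) + 4)) + 9)
  -- the three machines
  let ea : List Bool → List Bool := fun x => x
  let eb : List Bool → List Bool := fun x => N487b59b3.bitEncode (hdrU δ B Q c k ++ (List.replicate (N x) true ++ false :: x))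
  let ec : List Bool → List Bool := fun x => N487b59b3.bitEncode (theInst δ B Q c k (N x) x)
  let ed : List Bool → List Bool := fun x => [decide (x ∈ X)]
  obtain ⟨C1, c1⟩ := padder2 (hdrU δ B Q c k) D m' hm1
  let T1 : List Bool → ℕ := fun x => C1 * (2 ^ (x.length / m') + x.length + 1)
  let T2 : List Bool → ℕ := fun x => hF.time.eval (eb x).length
  let T3' : List Bool → ℕ := fun x => C3 * ((ec x).length + 1) ^ e
  have c2 : Cmp Set.univ eb ec T2 := by
    refine ⟨hF.tm, hF.inputAlphabet, hF.outputAlphabet, fun x _ => ⟨?_⟩⟩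
    have := hF.outputsFun (hdrU δ B Q c k ++ (List.replicate (N x) true ++ false :: x))
    rw [hFeq δ B Q c k (N x) x hp hk0 (hN1 x)] at this
    exact this
  have c3 : Cmp Set.univ ec ed T3' := by
    refine ⟨tm3, ei3, eo3, fun x _ => ?_⟩
    have hv := theInst_valid δ B Q c k (N x) x
    have := h3 (theInst δ B Q c k (N x) x) hv.1 hv.2 (theInst_nmax δ B Q c k (N x) x)
    have e1 : decide (Feasible (theInst δ B Q c k (N x) x)) = decide (x ∈ X) := by
      rw [decide_eq_decide]; exact hiff x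
    unfold Answers at this
    rw [e1] at this
    exact this
  obtain ⟨A1, l1⟩ := cmp_length _ _ _ _ c1
  obtain ⟨A2, l2⟩ := cmp_length _ _ _ _ c2
  obtain ⟨C12, c12⟩ := cmp_comp _ _ _ _ _ _ c1 c2
  obtain ⟨C123, c123⟩ := cmp_comp _ _ _ _ _ _ c12 c3
  -- growth
  let Y : List Bool → ℕ := fun x => 2 ^ (x.length / m') + x.length + 1
  have hY : ∀ x, 1 ≤ Y x := fun x => Nat.succ_le_of_lt (Nat.succ_pos _)
  have o0 : O Y (fun x => x.length) 1 := ⟨1, fun x => by
    rw [pow_one, one_mul]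
    exact Nat.le_succ_of_le (Nat.le_add_left _ _)⟩
  have o1 : O Y T1 1 := (O.self (Y := Y)).mulc C1
  have ob : O Y (fun x => (eb x).length) 1 :=
    (o0.add (o1.mulc A1)).mono (fun x => l1 x trivial)
  have o2 : O Y T2 d := by
    have := ((ob.add (O.const hY 1 1)).pow d).mulc a
    rw [one_mul] at this
    exact this.mono (fun x => had _)
  have oc : O Y (fun x => (ec x).length) (d + 1) :=
    ((ob.mono_exp hY (by omega)).add ((o2.mono_exp hY (by omega)).mulc A2)).mono
      (fun x => l2 x trivial)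
  have o3 : O Y T3' ((d + 1) * e) := ((oc.add (O.const hY 1 _)).pow e).mulc C3
  have g1 : 1 ≤ G := hG1
  have g2 : d ≤ G := by
    rw [hG]; nlinarith [Nat.zero_le d, Nat.zero_le e, Nat.zero_le (d * e)]
  have g3 : (d + 1) * e ≤ G := by rw [hG]; exact Nat.mul_le_mul_left _ (Nat.le_succ e)
  have o12 : O Y (fun x => C12 * (T1 x + T2 x + (ea x).length + 1)) G :=
    ((((o1.mono_exp hY g1).add (o2.mono_exp hY g2)).add (o0.mono_exp hY g1)).add
      (O.const hY 1 G)).mulc C12
  have oT : O Y (fun x => C123 * (C12 * (T1 x + T2 x + (ea x).length + 1) + T3' x +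
      (ea x).length + 1)) G :=
    (((o12.add (o3.mono_exp hY g3)).add (o0.mono_exp hY g1)).add (O.const hY 1 G)).mulc C123
  obtain ⟨K, hK⟩ := oT
  have hYG : ∀ x, Y x ^ G ≤ (1 + m') ^ G * 2 ^ (x.length / m) := by
    intro x
    have y1 : Y x ≤ (1 + m') * 2 ^ (x.length / m') := by
      have z1 : x.length + 1 ≤ m' * (x.length / m' + 1) := by
        have := Nat.lt_mul_div_succ x.length hm1
        omega
      have z2 : x.length / m' + 1 ≤ 2 ^ (x.length / m') := Nat.lt_two_pow_self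
      have z3 := Nat.mul_le_mul_left m' z2
      simp only [Y]
      rw [add_mul, one_mul]
      omega
    calc Y x ^ G ≤ ((1 + m') * 2 ^ (x.length / m')) ^ G := Nat.pow_le_pow_left y1 G
      _ = (1 + m') ^ G * 2 ^ (x.length / m' * G) := by rw [mul_pow, ← pow_mul]
      _ ≤ _ := by
          refine Nat.mul_le_mul_left _ (Nat.pow_le_pow_right (by norm_num) ?_)
          rw [hm', ← Nat.div_div_eq_div_mul]
          exact Nat.div_mul_le_self _ _
  have fin := cmp_mono c123 (T' := fun x => K * (1 + m') ^ G * 2 ^ (x.length / m)) (fun x => by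
    refine (hK x).trans ?_
    rw [mul_assoc]
    exact Nat.mul_le_mul_left _ (hYG x))
  obtain ⟨tm, ei, eo, hh⟩ := fin
  exact ⟨K * (1 + m') ^ G, tm, ei, eo, fun x => hh x trivial⟩



/-! ### converse direction -/

/-- jobs with given multiplicities -/
def jsOf (T : List Job) (c : ℕ → ℕ) : List Job :=
  (List.range T.length).flatMap (fun j => List.replicate (c j) (T.getD j []))

lemma mem_jsOf {T : List Job} {c : ℕ → ℕ} {J : Job} (h : J ∈ jsOf T c) : J ∈ T := by
  unfold jsOf at h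
  rw [List.mem_flatMap] at h
  obtain ⟨j, hj, h⟩ := h
  rw [List.mem_range] at hj
  rw [List.eq_of_mem_replicate h, List.getD_eq_getElem _ _ hj]
  exact List.getElem_mem hj

lemma count_jsOf {T : List Job} (hT : T.Nodup) (c : ℕ → ℕ) (j : ℕ) (hj : j < T.length) :
    (jsOf T c).count (T.getD j []) = c j := by
  unfold jsOf
  rw [List.count_flatMap]
  have h : ∀ n ≤ T.length, ((List.range n).map (List.count (T.getD j []) ∘
      fun j => List.replicate (c j) (T.getD j []))).sum = if j < n then c j else 0 := by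
    intro n
    induction n with
    | zero => simp
    | succ n ih =>
      intro hn
      rw [List.range_succ, List.map_append, List.sum_append, ih (by omega)]
      simp only [List.map_cons, List.map_nil, List.sum_cons, List.sum_nil, Function.comp,
        List.count_replicate, add_zero]
      by_cases hjn : j = n
      · subst hjn; simp
      · have : ¬ (T.getD n [] == T.getD j []) = true := by
          intro h
          rw [beq_iff_eq, List.getD_eq_getElem _ _ hj, List.getD_eq_getElem _ _ (by omega)] at h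
          exact hjn ((List.Nodup.getElem_inj_iff hT).1 h).symm
        rw [if_neg this]
        split_ifs <;> omega
  rw [h _ le_rfl, if_pos hj]

lemma count_le_of (T js : List Job) (bd : ℕ) (hb0 : 0 < bd) (hjs : ∀ J ∈ js, J ∈ T)
    (h : ∀ j < T.length, js.count (T.getD j []) < bd) (J : Job) : js.count J < bd := by
  by_cases hJ : J ∈ T
  · obtain ⟨j, hj, rfl⟩ := List.mem_iff_getElem.1 hJ
    have := h j hj
    rwa [List.getD_eq_getElem _ _ hj] at this
  · rw [List.count_eq_zero.2 (fun h => hJ (hjs J h))]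
    exact hb0

lemma prog_first {T : List Job} {R bd n : ℕ} {c c' : ℕ → ℕ}
    (h : CRun (prog T R) bd n ((0, 0, 0, 0), c) ((8, 0, 0, 0), c')) :
    ∀ j, T.length + 1 ≤ j → j < R → c j = 0 := by
  cases h with
  | step n p q o c c1 z hM ho hb h =>
    have : o = ⟨0, 0, List.range' (T.length + 1) (R - (T.length + 1))⟩ := by
      unfold prog at hM
      simp only [List.mem_append, List.mem_cons, List.mem_flatMap, Prod.mk.injEq,
        List.not_mem_nil, or_false] at hM
      rcases hM with (h | h | h) | h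
      · exact h.2.1
      · simp at h
      · simp at h
      · obtain ⟨a, _, h⟩ := h
        rcases h with h | ⟨b, _, h⟩
        · simp at h
        · rcases h with h | ⟨d, _, h⟩
          · simp at h
          · rcases h with h | h | h | h <;> simp at h
    intro j h1 h2
    refine ho.1 j ?_
    rw [this, List.mem_range'_1]
    omega

lemma prog_j (T : List Job) (R : ℕ) (hR : T.length * (um T + 1) < R) :
    ∀ t ∈ prog T R, t.2.1.kind = 0 ∨ t.2.1.j < R := by
  have h1 : T.length < R := by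
    rw [Nat.mul_succ] at hR; omega
  have hch : ∀ μ, ∀ a ∈ chs T μ, a = 0 ∨ a - 1 < T.length * um T := by
    intro μ a ha
    unfold chs at ha
    simp only [List.mem_cons, List.mem_map, List.mem_filter, List.mem_range] at ha
    rcases ha with h | ⟨i, ⟨hi, _⟩, rfl⟩
    · exact Or.inl h
    · right; omega
  have hd : ∀ μ, ∀ a ∈ chs T μ, (decop T a).kind = 0 ∨ (decop T a).j < R := by
    intro μ a ha
    unfold decop
    rw [Nat.mul_succ] at hR
    split_ifs with h
    · exact Or.inl rfl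
    · right
      have := (hch μ a ha).resolve_left h
      simp only [ix]
      split_ifs <;> omega
  have hi : ∀ Z μ, ∀ a ∈ chs T μ, (incop T a Z).kind = 0 ∨ (incop T a Z).j < R := by
    intro Z μ a ha
    unfold incop
    rw [Nat.mul_succ] at hR
    split_ifs with h
    · exact Or.inl rfl
    · right
      have := (hch μ a ha).resolve_left h
      simp only [ix]
      split_ifs <;> omega
  intro t ht
  unfold prog at ht
  simp only [List.mem_append, List.mem_cons, List.mem_flatMap, List.not_mem_nil, or_false] at ht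
  rcases ht with (h | h | h) | h
  · subst h; exact Or.inl rfl
  · subst h; exact Or.inl rfl
  · subst h; exact Or.inr h1
  · obtain ⟨a, ha, h⟩ := h
    rcases h with h | ⟨b, hb, h⟩
    · subst h; exact hd 0 a ha
    · rcases h with h | ⟨d, hd', h⟩
      · subst h; exact hd 1 b hb
      · rcases h with h | h | h | h
        · subst h; exact hd 2 d hd'
        · subst h; exact hi _ 0 a ha
        · subst h; exact hi _ 1 b hb
        · subst h; exact hi _ 2 d hd'

/-- the machine for the table `T` -/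
def dlt (T : List Job) (R : ℕ) : NTM := ntmOf (prog T R) R (0, 0, 0, 0) (8, 0, 0, 0)

lemma run_of_acc (T : List Job) (R : ℕ) (hT : T.Nodup)
    (hR : T.length * (um T + 1) < R) (x : List Bool) (hx : Accepts (dlt T R) x) :
    ∃ ℓ, x.length = R * ℓ + 1 ∧ ∃ js L, (∀ J ∈ js, J ∈ T) ∧ (∀ J, js.count J < 2 ^ ℓ) ∧
      L < 2 ^ ℓ ∧ (cx R x = c0J T js L) ∧ JRun js L := by
  have hR0 : 0 < R := by omega
  have hTR : T.length < R := by rw [Nat.mul_succ] at hR; omega
  obtain ⟨ℓ, n, c', hl, hr⟩ := ntm_sound (prog T R) R hR0 (0, 0, 0, 0) (8, 0, 0, 0)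
    (by simp) x hx
  have hz := prog_first hr
  refine ⟨ℓ, hl, jsOf T (cx R x), cx R x T.length, fun J hJ => mem_jsOf hJ, ?_, ?_, ?_, ?_⟩
  · refine count_le_of T _ _ (by positivity) (fun J hJ => mem_jsOf hJ) fun j hj => ?_
    rw [count_jsOf hT _ j hj]
    exact cx_lt R hR0 x ℓ hl j
  · exact cx_lt R hR0 x ℓ hl _
  · funext j
    unfold c0J
    split_ifs with h1 h2
    · rw [count_jsOf hT _ j h1]
    · rw [h2]
    · rcases Nat.lt_or_ge j R with h3 | h3
      · exact hz j (by omega) h3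
      · exact cx_ge R hR0 x j h3
  · refine jrun_of_crun T _ R _ (2 ^ ℓ) n hT (fun J hJ => mem_jsOf hJ) hR (cx R x) c' ?_ hr
    intro j hj
    unfold c0J
    split_ifs with h1 h2
    · rw [count_jsOf hT _ j h1]
    · rw [h2]
    · exact hz j (by omega) hj

lemma acc_of_run (T : List Job) (R : ℕ) (hT : T.Nodup) (hT3 : ∀ J ∈ T, ∀ o ∈ J, o.1 < 3)
    (hR : T.length * (um T + 1) < R) (x : List Bool) (ℓ : ℕ) (hl : x.length = R * ℓ + 1)
    (js : List Job) (L : ℕ) (hjs : ∀ J ∈ js, J ∈ T) (hb : ∀ J, js.count J < 2 ^ ℓ)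
    (hL : L < 2 ^ ℓ) (hc : cx R x = c0J T js L) (h : JRun js L) :
    AcceptsIn (dlt T R) x (x.length + 1) (2 * x.length * (7 * L + 2) + 3) := by
  have hR0 : 0 < R := by omega
  obtain ⟨n, c', hn, hr⟩ := crun_of_jrun T js R L (2 ^ ℓ) hT hT3 hjs hR hb hL h
  rw [← hc] at hr
  have := ntm_complete (prog T R) R hR0 _ _ (prog_j T R hR) x ℓ n c' hl hr
  refine T3.acc_mono this ?_
  have : 2 * x.length * n ≤ 2 * x.length * (7 * L + 2) := Nat.mul_le_mul_left _ hn
  omega

lemma dlt_in (T : List Job) (R : ℕ) (hT : T.Nodup) (hT3 : ∀ J ∈ T, ∀ o ∈ J, o.1 < 3)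
    (hR : T.length * (um T + 1) < R) (b : ℕ) (hb : 0 < b) (hRb : R = 2 * b) :
    {x | Accepts (dlt T R) x} ∈ NTISP2 b := by
  refine ⟨dlt T R, 1, 18 * (R + 1) + 3, rfl, ?_⟩
  intro x hx
  obtain ⟨ℓ, hl, js, L, hjs, hc, hL, hcx, hj⟩ := run_of_acc T R hT hR x hx
  have h := acc_of_run T R hT hT3 hR x ℓ hl js L hjs hc hL hcx hj
  rw [one_mul]
  refine T3.acc_mono h ?_
  have h1 : 2 * ℓ ≤ x.length / b := by
    rw [Nat.le_div_iff_mul_le hb, hl, hRb]
    have : 2 * ℓ * b = 2 * b * ℓ := by ring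
    omega
  have h2 : 2 ^ ℓ * 2 ^ ℓ ≤ 2 ^ (x.length / b) := by
    rw [← pow_add]
    exact Nat.pow_le_pow_right (by norm_num) (by omega)
  have h3 : ℓ + 1 ≤ 2 ^ ℓ := Nat.lt_two_pow_self
  have h4 : 7 * L + 2 ≤ 9 * 2 ^ ℓ := by omega
  have h5 : x.length ≤ (R + 1) * (ℓ + 1) := by rw [hl]; nlinarith [Nat.zero_le (R * 1)]
  calc 2 * x.length * (7 * L + 2) + 3 ≤ 2 * ((R + 1) * 2 ^ ℓ) * (9 * 2 ^ ℓ) + 3 * (2 ^ ℓ * 2 ^ ℓ) := by
        refine Nat.add_le_add (Nat.mul_le_mul (Nat.mul_le_mul_left _ (h5.trans ?_)) h4) ?_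
        · exact Nat.mul_le_mul_left _ h3
        · have : 1 ≤ 2 ^ ℓ * 2 ^ ℓ := Nat.succ_le_of_lt (by positivity)
          omega
    _ = (18 * (R + 1) + 3) * (2 ^ ℓ * 2 ^ ℓ) := by ring
    _ ≤ _ := Nat.mul_le_mul_left _ h2

lemma sum_p_le (js : List Job) (k : ℕ) (h : ∀ J ∈ js, ∀ o ∈ J, o.2 ≤ k) :
    (js.map (fun J => (J.map Prod.snd).sum)).sum ≤ k * (js.map List.length).sum := by
  have h1 : ∀ J : Job, (∀ o ∈ J, o.2 ≤ k) → (J.map Prod.snd).sum ≤ k * J.length := by
    intro J hJ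
    induction J with
    | nil => simp
    | cons o J ih =>
      have := ih (fun o' ho' => hJ o' (by simp [ho']))
      have h2 := hJ o (by simp)
      simp only [List.map_cons, List.sum_cons, List.length_cons, Nat.mul_succ]
      omega
  induction js with
  | nil => simp
  | cons J js ih =>
    have := ih (fun J' hJ' => h J' (by simp [hJ']))
    have h2 := h1 J (h J (by simp))
    simp only [List.map_cons, List.sum_cons, Nat.mul_add]
    omega

lemma le_pmax {I : Inst} {J : Job} (hJ : J ∈ I.1) {o : ℕ × ℕ} (ho : o ∈ J) : o.2 ≤ pmax I := by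
  unfold pmax
  have h : o.2 ∈ I.1.flatten.map Prod.snd :=
    List.mem_map.2 ⟨o, List.mem_flatten.2 ⟨J, hJ, ho⟩, rfl⟩
  generalize I.1.flatten.map Prod.snd = l at h
  induction l with
  | nil => simp at h
  | cons a l ih =>
    simp only [List.foldr_cons]
    rcases List.mem_cons.1 h with h | h
    · exact h ▸ le_max_left _ _
    · exact (ih h).trans (le_max_right _ _)

lemma cmp_pull {α β : Type} {ea eb : α → List Bool} {T : α → ℕ} (h : Cmp Set.univ ea eb T)
    (dom : Set β) (g : β → α) :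
    Cmp dom (fun b => ea (g b)) (fun b => eb (g b)) (fun b => T (g b)) := by
  obtain ⟨tm, ei, eo, h⟩ := h
  exact ⟨tm, ei, eo, fun b _ => h (g b) trivial⟩

lemma jobs_ok {k : ℕ} {I : Inst} (hv : Valid I) (hk : pmax I + nmax I ≤ k) :
    (∀ J ∈ I.1, ∀ o ∈ J, 0 < o.2) ∧
    (I.1.map (fun J => (J.map Prod.snd).sum)).sum ≤ capJ k (N487b59b3.bitEncode I).length := by
  refine ⟨fun J hJ o ho => ((hv J hJ).1 o ho).2, ?_⟩
  refine (sum_p_le I.1 k fun J hJ o ho => (le_pmax hJ ho).trans (by omega)).trans ?_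
  unfold capJ
  exact Nat.mul_le_mul (Nat.le_succ _) ((enc_bounds I).2.trans (Nat.le_succ _))

lemma length_wdJ (R : ℕ) (T : List Job) (k : ℕ) (I : Inst) :
    (wdJ R T k I).length = R * ellJ k (N487b59b3.bitEncode I).length + 1 := by
  simp [wdJ]

lemma cap_lt (k n : ℕ) : capJ k n < 2 ^ ellJ k n := by
  unfold ellJ
  exact Nat.lt_pow_succ_log_self (by norm_num) _

lemma wd_iff (T : List Job) (R k : ℕ) (hT : T.Nodup) (hT3 : ∀ J ∈ T, ∀ o ∈ J, o.1 < 3)
    (hR : T.length * (um T + 1) < R)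
    (hI : ∀ I : Inst, Valid I → pmax I + nmax I ≤ k → ∀ J ∈ I.1, J ∈ T) (I : Inst)
    (hv : Valid I) (hk : pmax I + nmax I ≤ k) :
    Accepts (dlt T R) (wdJ R T k I) ↔ Feasible I := by
  have hTR : T.length < R := by rw [Nat.mul_succ] at hR; omega
  obtain ⟨hp, hs⟩ := jobs_ok hv hk
  have hcap := feasible_cap I.1 I.2 (capJ k (N487b59b3.bitEncode I).length) hp hs
  have hcx := cx_wdJ R T k I hTR
  constructor
  · intro h
    obtain ⟨ℓ, n, c', hl, hr⟩ := ntm_sound (prog T R) R (by omega) (0, 0, 0, 0) (8, 0, 0, 0)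
      (by simp) _ h
    refine hcap.2 (feasible_of_jrun _ _ hp ?_)
    exact jrun_of_crun T I.1 R _ _ n hT (hI I hv hk) hR _ c' (fun j _ => hcx j) hr
  · intro h
    have h1 := jrun_of_feasible _ _ hp (hcap.1 h)
    have hlt := cap_lt k (N487b59b3.bitEncode I).length
    exact ⟨_, _, acc_of_run T R hT hT3 hR _ _ (length_wdJ R T k I) I.1 _ (hI I hv hk)
      (fun J => lt_of_le_of_lt (List.count_le_length.trans ((enc_bounds I).1.trans (by
        unfold capJ; nlinarith [Nat.zero_le (k * (N487b59b3.bitEncode I).length)]))) hlt)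
      (lt_of_le_of_lt (min_le_right _ _) hlt) (funext hcx) h1⟩

/-! #### growth -/

def Ob {α : Type} (Y f : α → ℕ) (g : ℕ) : Prop := ∃ C, ∀ x, f x ≤ C * Y x ^ g

section growth

variable {α : Type} {Y : α → ℕ}

lemma Ob.mono_exp (hY : ∀ x, 1 ≤ Y x) {f : α → ℕ} {g g' : ℕ} (h : Ob Y f g) (hg : g ≤ g') :
    Ob Y f g' := by
  obtain ⟨C, hC⟩ := h
  exact ⟨C, fun x => (hC x).trans (Nat.mul_le_mul_left _ (Nat.pow_le_pow_right (hY x) hg))⟩

lemma Ob.mono {f f' : α → ℕ} {g : ℕ} (h : Ob Y f g) (hf : ∀ x, f' x ≤ f x) : Ob Y f' g := by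
  obtain ⟨C, hC⟩ := h
  exact ⟨C, fun x => (hf x).trans (hC x)⟩

lemma Ob.const (hY : ∀ x, 1 ≤ Y x) (c : ℕ) (g : ℕ) : Ob Y (fun _ => c) g :=
  ⟨c, fun x => Nat.le_mul_of_pos_right _ (Nat.pow_pos (hY x))⟩

lemma Ob.add {f f' : α → ℕ} {g : ℕ} (h : Ob Y f g) (h' : Ob Y f' g) :
    Ob Y (fun x => f x + f' x) g := by
  obtain ⟨C, hC⟩ := h
  obtain ⟨C', hC'⟩ := h'
  exact ⟨C + C', fun x => by rw [add_mul]; exact add_le_add (hC x) (hC' x)⟩

lemma Ob.mulc {f : α → ℕ} {g : ℕ} (h : Ob Y f g) (c : ℕ) :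
    Ob Y (fun x => c * f x) g := by
  obtain ⟨C, hC⟩ := h
  exact ⟨c * C, fun x => by rw [mul_assoc]; exact Nat.mul_le_mul_left _ (hC x)⟩

lemma Ob.pow {f : α → ℕ} {g : ℕ} (h : Ob Y f g) (e : ℕ) :
    Ob Y (fun x => f x ^ e) (g * e) := by
  obtain ⟨C, hC⟩ := h
  exact ⟨C ^ e, fun x => by rw [pow_mul, ← mul_pow]; exact Nat.pow_le_pow_left (hC x) e⟩

lemma Ob.self : Ob Y Y 1 := ⟨1, fun x => by simp⟩

end growth

lemma bitEncode_len (w : List Bool) : (N487b59b3.bitEncode w).length = 3 * w.length := by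
  rw [Pool.Agent.H54.PT.bitEncode_word, Pool.Agent.H54.PT.length_trp]

lemma addhdr_len (hdr : List Bool) : ∃ A, ∀ w : List Bool,
    (N487b59b3.bitEncode (hdr ++ w)).length ≤ A * (w.length + 1) := by
  refine ⟨3 * (hdr.length + 1), fun w => ?_⟩
  rw [bitEncode_len, List.length_append]
  nlinarith [Nat.zero_le (hdr.length * w.length)]

open T3 in
/-- converse direction -/
theorem nufpt_of_collapse (h : Collapse) : NUFPT := by
  classical
  obtain ⟨a, ha, h⟩ := h
  obtain ⟨F, ⟨hF⟩, hFeq⟩ := wd_poly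
  obtain ⟨A, d, had⟩ := poly_bound hF.time
  refine ⟨d + 2 * a + 1, fun k => ?_⟩
  obtain ⟨T, hT, hT3, htab⟩ := exists_table k
  set m := T.length * (um T + 1) + 1 with hm
  have hm0 : 0 < m := Nat.succ_pos _
  have ham : 0 < a * m := Nat.mul_pos ha hm0
  set R := 2 * (a * m) with hR
  have hTR : T.length * (um T + 1) < R := by
    have : m ≤ a * m := Nat.le_mul_of_pos_left m ha
    omega
  obtain ⟨D, tm4, ei4, eo4, h4⟩ := h m hm0 (dlt_in T R hT hT3 hTR (a * m) ham hR)
  obtain ⟨hdr, hhdr⟩ := hFeq R T k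
  let dom : Set Inst := {I | Valid I ∧ pmax I + nmax I ≤ k}
  let e0 : Inst → List Bool := fun I => N487b59b3.bitEncode I
  let e1 : Inst → List Bool := fun I => N487b59b3.bitEncode (hdr ++ N487b59b3.bitEncode I)
  let e2 : Inst → List Bool := fun I => N487b59b3.bitEncode (wdJ R T k I)
  let e3 : Inst → List Bool := fun I => wdJ R T k I
  let e4 : Inst → List Bool := fun I => [decide (Feasible I)]
  obtain ⟨C1, c1⟩ := addhdr hdr
  replace c1 := cmp_pull c1 dom (fun I : Inst => N487b59b3.bitEncode I)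
  change Cmp dom e0 e1 (fun I => C1 * ((e0 I).length + 1)) at c1
  have c2 : Cmp dom e1 e2 (fun I => hF.time.eval (e1 I).length) := by
    refine ⟨hF.tm, hF.inputAlphabet, hF.outputAlphabet, fun I _ => ⟨?_⟩⟩
    have := hF.outputsFun (hdr ++ N487b59b3.bitEncode I)
    rw [hhdr I] at this
    exact this
  obtain ⟨C3, c3⟩ := untrp
  replace c3 := cmp_pull c3 dom (fun I : Inst => wdJ R T k I)
  change Cmp dom e2 e3 (fun I => C3 * ((e3 I).length + 1)) at c3
  have c4 : Cmp dom e3 e4 (fun I => D * 2 ^ ((e3 I).length / m)) := by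
    refine ⟨tm4, ei4, eo4, fun I hI => ?_⟩
    have := h4 (wdJ R T k I)
    have e : decide (wdJ R T k I ∈ {x | Accepts (dlt T R) x}) = decide (Feasible I) := by
      rw [decide_eq_decide]
      exact wd_iff T R k hT hT3 hTR htab I hI.1 hI.2
    rw [e] at this
    exact this
  let T1 : Inst → ℕ := fun I => C1 * ((e0 I).length + 1)
  let T2 : Inst → ℕ := fun I => hF.time.eval (e1 I).length
  let T3' : Inst → ℕ := fun I => C3 * ((e3 I).length + 1)
  let T4 : Inst → ℕ := fun I => D * 2 ^ ((e3 I).length / m)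
  obtain ⟨A1, l1⟩ := addhdr_len hdr
  obtain ⟨C12, c12⟩ := cmp_comp _ _ _ _ _ _ c1 c2
  obtain ⟨C34, c34⟩ := cmp_comp _ _ _ _ _ _ c3 c4
  obtain ⟨C, c⟩ := cmp_comp _ _ _ _ _ _ c12 c34
  let Y : Inst → ℕ := fun I => (e0 I).length + 1
  have hY : ∀ I, 1 ≤ Y I := fun I => Nat.le_add_left _ _
  have oY : Ob Y Y 1 := Ob.self
  have o0 : Ob Y (fun I => (e0 I).length) 1 := oY.mono fun I => Nat.le_succ _
  have o1 : Ob Y T1 1 := oY.mulc C1
  have oe1 : Ob Y (fun I => (e1 I).length) 1 := (oY.mulc A1).mono fun I => l1 _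
  have o2 : Ob Y T2 d := by
    have := ((oe1.add (Ob.const hY 1 1)).pow d).mulc A
    rw [one_mul] at this
    exact this.mono fun I => had _
  have oe3 : Ob Y (fun I => (e3 I).length) 1 := by
    have h1 : Ob Y (fun I => R * ((k + 1) * Y I + 1) + 1) 1 :=
      (((oY.mulc (k + 1)).add (Ob.const hY 1 1)).mulc R).add (Ob.const hY 1 1)
    refine h1.mono fun I => ?_
    show (wdJ R T k I).length ≤ _
    rw [length_wdJ]
    refine Nat.succ_le_succ (Nat.mul_le_mul_left _ (Nat.succ_le_succ ?_))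
    exact Nat.log_le_self _ _
  have o3 : Ob Y T3' 1 := (oe3.add (Ob.const hY 1 1)).mulc C3
  have oe2 : Ob Y (fun I => (e2 I).length) 1 := by
    refine (oe3.mulc 3).mono fun I => ?_
    exact (Pool.Agent.helper66.JS.bitEncode_len _).le
  have o4 : Ob Y T4 (2 * a) := by
    have h1 : Ob Y (fun I => D * (2 * (2 * ((k + 1) * Y I)) ^ (2 * a))) (2 * a) := by
      have := (((oY.mulc (k + 1)).mulc 2).pow (2 * a)).mulc 2
      rw [one_mul] at this
      exact this.mulc D
    refine h1.mono fun I => ?_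
    show D * 2 ^ ((wdJ R T k I).length / m) ≤ _
    refine Nat.mul_le_mul_left _ ?_
    rw [length_wdJ]
    set L := ellJ k (N487b59b3.bitEncode I).length with hL
    have g1 : (R * L + 1) / m ≤ 2 * a * L + 1 := by
      rw [Nat.div_le_iff_le_mul_add_pred hm0, hR]
      have : 2 * (a * m) * L = m * (2 * a * L) := by ring
      rw [this, Nat.mul_add]
      omega
    have g2 : 2 ^ L ≤ 2 * ((k + 1) * Y I) := by
      rw [hL]
      unfold ellJ
      rw [pow_succ, mul_comm]
      refine Nat.mul_le_mul_left _ ?_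
      exact Nat.pow_log_le_self _ (by unfold capJ; positivity)
    calc 2 ^ ((R * L + 1) / m) ≤ 2 ^ (2 * a * L + 1) := Nat.pow_le_pow_right (by norm_num) g1
      _ = 2 * (2 ^ L) ^ (2 * a) := by rw [pow_succ, ← pow_mul]; ring_nf
      _ ≤ _ := Nat.mul_le_mul_left _ (Nat.pow_le_pow_left g2 _)
  set e := d + 2 * a + 1 with he
  have u1 : ∀ {f : Inst → ℕ}, Ob Y f 1 → Ob Y f e := fun h => h.mono_exp hY (by omega)
  have v12 : Ob Y (fun I => C12 * (T1 I + T2 I + (e0 I).length + 1)) e :=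
    ((((u1 o1).add (o2.mono_exp hY (by omega))).add (u1 o0)).add (Ob.const hY 1 e)).mulc C12
  have v34 : Ob Y (fun I => C34 * (T3' I + T4 I + (e2 I).length + 1)) e :=
    ((((u1 o3).add (o4.mono_exp hY (by omega))).add (u1 oe2)).add (Ob.const hY 1 e)).mulc C34
  obtain ⟨K, hK⟩ := (((v12.add v34).add (u1 o0)).add (Ob.const hY 1 e)).mulc C
  obtain ⟨tm, ei, eo, hh⟩ := cmp_mono c hK
  exact ⟨K, tm, ei, eo, fun I h1 h2 => hh I ⟨h1, h2⟩⟩

theorem nufpt_of_fpt (h : FPT) : NUFPT := by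
  obtain ⟨f, c, tm, ei, eo, _, h⟩ := h
  refine ⟨c, fun k => ⟨∑ i ∈ Finset.range (k + 1), f i, tm, ei, eo, fun I hI hk => ?_⟩⟩
  obtain ⟨h1⟩ := h I hI
  refine ⟨{ steps := h1.steps, evals_in_steps := h1.evals_in_steps,
            steps_le_m := h1.steps_le_m.trans (Nat.mul_le_mul_right _ ?_) }⟩
  exact Finset.single_le_sum (f := f) (fun _ _ => Nat.zero_le _) (Finset.mem_range.2 (by omega))

theorem slice_of_nufpt (h : NUFPT) : SliceFPT := by
  obtain ⟨c, h⟩ := h
  refine ⟨c, fun k => ?_⟩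
  obtain ⟨C, tm, ei, eo, h⟩ := h (48 + k)
  exact ⟨C, tm, ei, eo, fun I hI hp hn => h I hI (by omega)⟩

theorem ntisp_of_collapse (h : Collapse) (m : ℕ) (hm : 0 < m) : NTISP ⊆ DTime2 m := by
  obtain ⟨a, ha, h⟩ := h
  intro X hX
  obtain ⟨δ, c, hX, hD⟩ := hX
  obtain ⟨D, hD⟩ := hD (a * m) (Nat.mul_pos ha hm)
  exact h m hm ⟨δ, c, D, hX, hD⟩

/-- The exact characterization. -/
theorem main2 : (FPT → NUFPT) ∧ List.TFAE [NUFPT, SliceFPT, Collapse] ∧
    (Collapse → ∀ m : ℕ, 0 < m → NTISP ⊆ DTime2 m) := by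
  refine ⟨nufpt_of_fpt, ?_, ntisp_of_collapse⟩
  tfae_have 1 → 2 := slice_of_nufpt
  tfae_have 2 → 3 := collapse_of_slice
  tfae_have 3 → 1 := nufpt_of_collapse
  tfae_finish

end Pool.Agent.helper66.JS
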