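import Pool.Agent.helper66.JS2.Blk

/-!
# Parsing delimited blocks
-/

set_option autoImplicit false

namespace Pool.Agent.helper66.JS

namespace Par

open Pool.Agent.H54.PT N487b59b3

/-- flag positions -/
def fl (g : ℕ → Bool) : ℕ → Bool
  | 0 => true
  | i + 1 => !(fl g i && g i)

/-- starts of blocks -/
def stt (g : ℕ → Bool) : ℕ → Bool
  | 0 => true
  | i + 1 => fl g i && !(g i)

/-- number of ones immediately before position `i` -/
def run (g : ℕ → Bool) (i : ℕ) : ℕ :=
  ((Finset.range i).filter (fun j => ∀ l < i, j ≤ l → g l = true)).card

lemma run_succ (g : ℕ → Bool) (i : ℕ) : run g (i + 1) = if g i = true then run g i + 1 else 0 := by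
  unfold run
  split_ifs with h
  · have : (Finset.range (i + 1)).filter (fun j => ∀ l < i + 1, j ≤ l → g l = true) =
        insert i ((Finset.range i).filter (fun j => ∀ l < i, j ≤ l → g l = true)) := by
      ext j
      rw [Finset.mem_insert, Finset.mem_filter, Finset.mem_filter, Finset.mem_range,
        Finset.mem_range]
      constructor
      · rintro ⟨h1, h2⟩
        rcases Nat.lt_succ_iff_lt_or_eq.1 h1 with h3 | h3
        · exact Or.inr ⟨h3, fun l hl => h2 l (by omega)⟩
        · exact Or.inl h3
      · rintro (h1 | ⟨h1, h2⟩)
        · subst h1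
          refine ⟨by omega, fun l h1 h2 => ?_⟩
          have : l = j := by omega
          rw [this]; exact h
        · refine ⟨by omega, fun l h3 h4 => ?_⟩
          rcases Nat.lt_succ_iff_lt_or_eq.1 h3 with h5 | h5
          · exact h2 l h5 h4
          · rw [h5]; exact h
    rw [this, Finset.card_insert_of_notMem]
    intro h1
    rw [Finset.mem_filter, Finset.mem_range] at h1
    omega
  · rw [Finset.card_eq_zero, Finset.filter_eq_empty_iff]
    intro j hj h1
    rw [Finset.mem_range] at hj
    exact h (h1 i (by omega) (by omega))

lemma fl_eq (g : ℕ → Bool) (i : ℕ) : fl g i = decide (run g i % 2 = 0) := by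
  induction i with
  | zero => rfl
  | succ i ih =>
    rw [run_succ]
    show (!(fl g i && g i)) = _
    rw [ih]
    cases h : g i
    · simp
    · rw [if_pos rfl]
      rcases Nat.mod_two_eq_zero_or_one (run g i) with h2 | h2
      · have h3 : (run g i + 1) % 2 = 1 := by omega
        rw [h2, h3]; rfl
      · have h3 : (run g i + 1) % 2 = 0 := by omega
        rw [h2, h3]; rfl

/-! ### one block -/

lemma dl_getD (w : List Bool) (r : List Bool) : ∀ j < w.length,
    (delimit w ++ r).getD (2 * j) false = true ∧
      (delimit w ++ r).getD (2 * j + 1) false = w.getD j false := by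
  induction w with
  | nil => intro j h; simp at h
  | cons b w ih =>
    intro j h
    cases j with
    | zero => exact ⟨rfl, rfl⟩
    | succ j =>
      have := ih j (by simpa using h)
      rw [show 2 * (j + 1) = 2 * j + 1 + 1 from by ring]
      exact this

lemma dl_end (w r : List Bool) : (delimit w ++ r).getD (2 * w.length) false = false := by
  induction w with
  | nil => rfl
  | cons b w ih =>
    rw [List.length_cons, show 2 * (w.length + 1) = 2 * w.length + 1 + 1 from by ring]
    exact ih

/-- bits of a word -/
abbrev gt (y : List Bool) : ℕ → Bool := fun i => y.getD i false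

lemma fl_even (w r : List Bool) : ∀ j ≤ w.length, fl (gt (delimit w ++ r)) (2 * j) = true := by
  intro j
  induction j with
  | zero => intro _; rfl
  | succ j ih =>
    intro h
    have h1 := ih (by omega)
    have h2 := (dl_getD w r j (by omega)).1
    show (!(!(fl (gt (delimit w ++ r)) (2 * j) && (delimit w ++ r).getD (2 * j) false) &&
      _)) = true
    rw [h1, h2]
    rfl

lemma fl_shift (w r : List Bool) (i : ℕ) :
    fl (gt (delimit w ++ r)) (2 * w.length + 1 + i) = fl (gt r) i := by
  induction i with
  | zero =>
    show (!(fl (gt (delimit w ++ r)) (2 * w.length) &&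
      (delimit w ++ r).getD (2 * w.length) false)) = true
    rw [dl_end]
    simp
  | succ i ih =>
    show (!(fl (gt (delimit w ++ r)) (2 * w.length + 1 + i) &&
      (delimit w ++ r).getD (2 * w.length + 1 + i) false)) = (!(fl (gt r) i && r.getD i false))
    rw [ih]
    have := Blk.getD_after (delimit w) r i
    rw [length_delimit] at this
    rw [this]

lemma stt_shift (w r : List Bool) (i : ℕ) :
    stt (gt (delimit w ++ r)) (2 * w.length + 1 + i) = stt (gt r) i := by
  cases i with
  | zero =>
    show (fl (gt (delimit w ++ r)) (2 * w.length) &&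
      !(delimit w ++ r).getD (2 * w.length) false) = true
    rw [fl_even w r _ le_rfl, dl_end]
    rfl
  | succ i =>
    show (fl (gt (delimit w ++ r)) (2 * w.length + 1 + i) &&
      !(delimit w ++ r).getD (2 * w.length + 1 + i) false) = (fl (gt r) i && !r.getD i false)
    rw [fl_shift]
    have := Blk.getD_after (delimit w) r i
    rw [length_delimit] at this
    rw [this]

lemma stt_low (w r : List Bool) (i : ℕ) (h0 : 0 < i) (h1 : i < 2 * w.length + 1) :
    stt (gt (delimit w ++ r)) i = false := by
  obtain ⟨i, rfl⟩ : ∃ i', i = i' + 1 := ⟨i - 1, by omega⟩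
  show (fl (gt (delimit w ++ r)) i && !(delimit w ++ r).getD i false) = false
  rcases Nat.even_or_odd' i with ⟨j, rfl | rfl⟩
  · rw [(dl_getD w r j (by omega)).1]
    simp
  · have h1 := fl_even w r j (by omega)
    have h2 := (dl_getD w r j (by omega)).1
    have : fl (gt (delimit w ++ r)) (2 * j + 1) = false := by
      show (!(fl (gt (delimit w ++ r)) (2 * j) && (delimit w ++ r).getD (2 * j) false)) = false
      rw [h1, h2]
      rfl
    rw [this]
    rfl

/-! ### counting blocks -/

/-- the word `d` occurs at position `i` -/
def Mt (y : List Bool) (d : List Bool) (i : ℕ) : Prop :=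
  i + d.length ≤ y.length ∧ ∀ l < d.length, (y.getD (i + l) false = true ↔ d.getD l false = true)

lemma mt_prefix (y d : List Bool) : Mt y d 0 ↔ d <+: y := by
  constructor
  · rintro ⟨h1, h2⟩
    rw [List.prefix_iff_eq_take]
    refine List.ext_getElem (by simp; omega) fun i hi hi' => ?_
    have := h2 i hi
    rw [zero_add, List.getD_eq_getElem _ _ (by omega), List.getD_eq_getElem _ _ hi] at this
    rw [List.getElem_take]
    exact (Bool.eq_iff_iff.2 this).symm
  · rintro ⟨t, rfl⟩
    refine ⟨by simp, fun l hl => ?_⟩
    rw [zero_add, List.getD_append _ _ _ _ hl]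

lemma mt_shift (u y d : List Bool) (i : ℕ) : Mt (u ++ y) d (u.length + i) ↔ Mt y d i := by
  unfold Mt
  rw [List.length_append]
  refine and_congr (by omega) (forall_congr' fun l => forall_congr' fun _ => ?_)
  rw [add_assoc, Blk.getD_after]

lemma mt_delimit (w w0 r : List Bool) : Mt (delimit w ++ r) (delimit w0) 0 ↔ w = w0 := by
  rw [mt_prefix]
  constructor
  · rintro ⟨t, h⟩
    have h1 := congrArg undelimit h
    rw [undelimit_delimit, undelimit_delimit, Option.some.injEq, Prod.mk.injEq] at h1
    exact h1.1.symm
  · rintro rfl
    exact ⟨r, rfl⟩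

open Classical in
/-- number of blocks equal to `w0` -/
noncomputable def cntB (y w0 : List Bool) : ℕ :=
  ((Finset.range y.length).filter (fun i => stt (gt y) i = true ∧ Mt y (delimit w0) i)).card

lemma cntB_eq (w0 : List Bool) (ws : List (List Bool)) :
    cntB (ws.flatMap delimit) w0 = ws.count w0 := by
  classical
  induction ws with
  | nil => rfl
  | cons w ws ih =>
    rw [List.flatMap_cons, List.count_cons, ← ih]
    unfold cntB
    rw [Finset.card_filter, Finset.card_filter, List.length_append, length_delimit,
      Finset.sum_range_add, add_comm]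
    congr 1
    · refine Finset.sum_congr rfl fun i _ => ?_
      have h1 := stt_shift w (ws.flatMap delimit) i
      have h2 := mt_shift (delimit w) (ws.flatMap delimit) (delimit w0) i
      rw [length_delimit] at h2
      simp only [h1, h2]
    · rw [Finset.sum_range_succ', Finset.sum_eq_zero, zero_add]
      · have : stt (gt (delimit w ++ ws.flatMap delimit)) 0 = true := rfl
        simp only [this, true_and, mt_delimit, beq_iff_eq]
      · intro i hi
        rw [Finset.mem_range] at hi
        rw [if_neg]
        rintro ⟨h, _⟩
        rw [stt_low w _ (i + 1) (by omega) (by omega)] at h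
        cases h

lemma bitEncode_list' {α : Type} [N487b59b3 α] (l : List α) :
    bitEncode l = (l.map bitEncode).flatMap delimit := by
  rw [bitEncode_list, List.flatMap_map]

theorem cntB_list {α : Type} [BEq α] [LawfulBEq α] [N487b59b3 α] (l : List α) (a : α) :
    cntB (bitEncode l) (bitEncode a) = l.count a := by
  rw [bitEncode_list', cntB_eq]
  induction l with
  | nil => rfl
  | cons b l ih =>
    rw [List.map_cons, List.count_cons, List.count_cons, ih]
    congr 1
    by_cases h : b = a
    · subst h; simp
    · have h' : ¬ bitEncode b = bitEncode a := fun e => h (bitEncode_injective e)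
      simp [h, h']

end Par

end Pool.Agent.helper66.JS
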